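import Mathlib
import Pool.Agent.TH278.DX.Exact

/-!
# Operators almost commuting with multiples of the regular representation
-/

set_option autoImplicit false

namespace Pool.Agent.Y324.DX

open Pool.Agent.TH278.DX
open Pool.Agent.TH542.J4948 (kesten)
open Pool.Agent.TH113.J4949 (excessive)
open Pool.Agent.TH448.J5171 (girth)
open Pool.Agent.TH341.J5172 (moment)
open Pool.Agent.TH542.J5173 (cut)
open Pool.Agent.TH403.J5174 (khintchine)
open Pool.Agent.TH667.J5175 (exists_Y)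
open Pool.Agent.TH570.J5176 (exists_op exists_reg)
open Pool.Agent.TH753.J5177 (localize)
open Pool.Agent.TH855.J5186 (far)

open scoped Classical in
/-- For a nonamenable group with property A there are operators on a finite multiple of the regular
representation which almost commute with it but are far from its commutant (the construction is that
of `Pool.Agent.TH278.DX.Exact`). -/
theorem exists_almost {G : Type} [Group G] (hA : PropertyA G) (hG : ¬ Amenable G) (ε : ℝ)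
    (hε : 0 < ε) :
    ∃ (Q : Type) (_ : Fintype Q)
      (σ : G →* (lp (fun _ : G => EuclideanSpace ℂ Q) 2 →L[ℂ]
        lp (fun _ : G => EuclideanSpace ℂ Q) 2)ˣ)
      (T : lp (fun _ : G => EuclideanSpace ℂ Q) 2 →L[ℂ] lp (fun _ : G => EuclideanSpace ℂ Q) 2),
      (∀ (t : G) (φ : lp (fun _ : G => EuclideanSpace ℂ Q) 2) (s : G),
        ((σ t : (lp (fun _ : G => EuclideanSpace ℂ Q) 2 →L[ℂ]
          lp (fun _ : G => EuclideanSpace ℂ Q) 2)ˣ) :
          lp (fun _ : G => EuclideanSpace ℂ Q) 2 →L[ℂ]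
            lp (fun _ : G => EuclideanSpace ℂ Q) 2) φ s = φ (t⁻¹ * s)) ∧
      (∀ t, ‖((σ t : (lp (fun _ : G => EuclideanSpace ℂ Q) 2 →L[ℂ]
          lp (fun _ : G => EuclideanSpace ℂ Q) 2)ˣ) :
          lp (fun _ : G => EuclideanSpace ℂ Q) 2 →L[ℂ]
            lp (fun _ : G => EuclideanSpace ℂ Q) 2) * T -
          T * ((σ t : (lp (fun _ : G => EuclideanSpace ℂ Q) 2 →L[ℂ]
          lp (fun _ : G => EuclideanSpace ℂ Q) 2)ˣ) :
          lp (fun _ : G => EuclideanSpace ℂ Q) 2 →L[ℂ]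
            lp (fun _ : G => EuclideanSpace ℂ Q) 2)‖ ≤ ε) ∧
      ∀ B : lp (fun _ : G => EuclideanSpace ℂ Q) 2 →L[ℂ] lp (fun _ : G => EuclideanSpace ℂ Q) 2,
        (∀ t, B * ((σ t : (lp (fun _ : G => EuclideanSpace ℂ Q) 2 →L[ℂ]
          lp (fun _ : G => EuclideanSpace ℂ Q) 2)ˣ) :
          lp (fun _ : G => EuclideanSpace ℂ Q) 2 →L[ℂ]
            lp (fun _ : G => EuclideanSpace ℂ Q) 2) =
          ((σ t : (lp (fun _ : G => EuclideanSpace ℂ Q) 2 →L[ℂ]
          lp (fun _ : G => EuclideanSpace ℂ Q) 2)ˣ) :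
          lp (fun _ : G => EuclideanSpace ℂ Q) 2 →L[ℂ]
            lp (fun _ : G => EuclideanSpace ℂ Q) 2) * B) → 1 / 4 ≤ ‖T - B‖ := by
  -- the parameter
  obtain ⟨δ, hδ, hδ1, hδ2⟩ : ∃ δ : ℝ, 0 < δ ∧ δ ≤ 1 / 32 ∧ 4 * Real.sqrt (4 * δ) ≤ ε := by
    refine ⟨min (1 / 32) (ε ^ 2 / 64), by positivity, min_le_left _ _, ?_⟩
    have h1 : 4 * min (1 / 32) (ε ^ 2 / 64) ≤ (ε / 4) ^ 2 := by
      have h2 := min_le_right (1 / 32 : ℝ) (ε ^ 2 / 64)
      nlinarith
    have h5 : Real.sqrt (4 * min (1 / 32) (ε ^ 2 / 64)) ≤ ε / 4 := by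
      calc _ ≤ Real.sqrt ((ε / 4) ^ 2) := Real.sqrt_le_sqrt h1
        _ = ε / 4 := Real.sqrt_sq (by positivity)
    linarith
  obtain ⟨F, TF, hF0, hFs, hF1, hTF, hTF'⟩ := kesten hG δ hδ
  obtain ⟨h, hh0, hh⟩ := excessive F hF0 hFs TF δ hδ hTF hTF'
  set E : Finset G := F.support with hE
  have hF1' : ∑ g ∈ E, F g = 1 := by rw [← hF1, Finsupp.sum]
  have hh' : ∀ s, ∑ g ∈ E, F g * h (s * g) ≤ 2 * δ * h s := by
    intro s
    have := hh s
    rwa [Finsupp.sum] at this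
  have hEinv : ∀ g, g ∈ E ↔ g⁻¹ ∈ E := by
    intro g
    rw [hE, Finsupp.mem_support_iff, Finsupp.mem_support_iff, hFs]
  -- the order pattern
  let w₀ : G → G → ℝ := fun s v => if h s ≤ h v then 1 else 0
  have hw₀ : ∀ s v, w₀ s v = 0 ∨ w₀ s v = 1 := by
    intro s v
    by_cases hc : h s ≤ h v
    · right; simp [w₀, hc]
    · left; simp [w₀, hc]
  have hrow : ∀ s, ∑ g ∈ E, F g * w₀ s (s * g) ≤ 2 * δ := by
    intro s
    have h1 : ∑ g ∈ E, F g * w₀ s (s * g) ≤ ∑ g ∈ E, F g * h (s * g) / h s := by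
      apply Finset.sum_le_sum
      intro g _
      rw [mul_div_assoc]
      apply mul_le_mul_of_nonneg_left _ (hF0 g)
      by_cases hc : h s ≤ h (s * g)
      · simp only [w₀, if_pos hc]
        rwa [le_div_iff₀ (hh0 s), one_mul]
      · simp only [w₀, if_neg hc]
        exact div_nonneg (hh0 _).le (hh0 _).le
    refine h1.trans ?_
    rw [← Finset.sum_div, div_le_iff₀ (hh0 s)]
    exact hh' s
  have hinv : ∀ (u : G → ℝ), ∑ g ∈ E, F g * u g⁻¹ = ∑ g ∈ E, F g * u g := by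
    intro u
    exact Finset.sum_bij' (fun g _ => g⁻¹) (fun g _ => g⁻¹) (fun g hg => (hEinv g).1 hg)
      (fun g hg => (hEinv g).1 hg) (fun g _ => inv_inv g) (fun g _ => inv_inv g)
      (fun g _ => by rw [hFs])
  have hcol : ∀ v, ∑ g ∈ E, F g * (1 - w₀ (v * g⁻¹) v) ≤ 2 * δ := by
    intro v
    have h1 : ∑ g ∈ E, F g * (1 - w₀ (v * g⁻¹) v) ≤ ∑ g ∈ E, F g * (h (v * g⁻¹) / h v) := by
      apply Finset.sum_le_sum
      intro g _
      apply mul_le_mul_of_nonneg_left _ (hF0 g)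
      by_cases hc : h (v * g⁻¹) ≤ h v
      · simp only [w₀, if_pos hc, sub_self]
        exact div_nonneg (hh0 _).le (hh0 _).le
      · simp only [w₀, if_neg hc, sub_zero]
        rw [le_div_iff₀ (hh0 v), one_mul]
        push Not at hc
        exact hc.le
    refine h1.trans ?_
    rw [hinv (fun g => h (v * g) / h v)]
    simp_rw [← mul_div_assoc]
    rw [← Finset.sum_div, div_le_iff₀ (hh0 v)]
    exact hh' v
  -- the radius and the Khintchine matrices
  set r : ℝ := Real.sqrt (4 * δ) with hr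
  have hr0 : 0 < r := Real.sqrt_pos.2 (by positivity)
  have hr2 : r ^ 2 = 4 * δ := Real.sq_sqrt (by positivity)
  set c : ℝ := ∑ g ∈ E, Real.sqrt (F g) with hc
  have hc0 : 0 ≤ c := Finset.sum_nonneg fun g _ => Real.sqrt_nonneg _
  obtain ⟨K, ξ, hξ0, hξ1, hξ2⟩ := hA E (r / (c + 1)) (by positivity)
  obtain ⟨Q, i1, i2, i3, Y, hY1, hYtr, hYloc⟩ :=
    exists_Y (khintchine girth moment cut) E F hF0 K r (1 / 4) hr0 (by norm_num)
  obtain ⟨T, hT⟩ := exists_op E Y (fun g => Real.sqrt (F g)) w₀ (by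
    intro s v
    rcases hw₀ s v with h1 | h1 <;> rw [h1] <;> norm_num)
  obtain ⟨σ, hσu, hσ⟩ := exists_reg G (EuclideanSpace ℂ Q)
  -- the commutators are small
  have hcomm : ∀ t, ‖((σ t : (lp (fun _ : G => EuclideanSpace ℂ Q) 2 →L[ℂ]
      lp (fun _ : G => EuclideanSpace ℂ Q) 2)ˣ) : lp (fun _ : G => EuclideanSpace ℂ Q) 2 →L[ℂ]
      lp (fun _ : G => EuclideanSpace ℂ Q) 2) * T - T *
      ((σ t : (lp (fun _ : G => EuclideanSpace ℂ Q) 2 →L[ℂ]
      lp (fun _ : G => EuclideanSpace ℂ Q) 2)ˣ) : lp (fun _ : G => EuclideanSpace ℂ Q) 2 →L[ℂ]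
      lp (fun _ : G => EuclideanSpace ℂ Q) 2)‖ ≤ 4 * r := by
    intro t
    set U := ((σ t : (lp (fun _ : G => EuclideanSpace ℂ Q) 2 →L[ℂ]
      lp (fun _ : G => EuclideanSpace ℂ Q) 2)ˣ) : lp (fun _ : G => EuclideanSpace ℂ Q) 2 →L[ℂ]
      lp (fun _ : G => EuclideanSpace ℂ Q) 2) with hU
    set U' := ((σ t⁻¹ : (lp (fun _ : G => EuclideanSpace ℂ Q) 2 →L[ℂ]
      lp (fun _ : G => EuclideanSpace ℂ Q) 2)ˣ) : lp (fun _ : G => EuclideanSpace ℂ Q) 2 →L[ℂ]
      lp (fun _ : G => EuclideanSpace ℂ Q) 2) with hU'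
    have hUU' : U * U' = 1 := by
      rw [hU, hU', map_inv]
      exact (σ t).mul_inv
    set W := T - U' * T * U with hW
    -- the pattern of `W`
    let w : G → G → ℝ := fun s v => w₀ s v - w₀ (t * s) (t * v)
    have hWf : ∀ (φ : lp (fun _ : G => EuclideanSpace ℂ Q) 2) (s : G),
        W φ s = ∑ g ∈ E, ((Real.sqrt (F g) * w s (s * g) : ℝ) : ℂ) • Y g (φ (s * g)) := by
      intro φ s
      have e1 : (U' * T * U) φ s = ∑ g ∈ E, ((Real.sqrt (F g) * w₀ (t * s) (t * (s * g)) : ℝ) : ℂ) •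
          Y g (φ (s * g)) := by
        change (U' (T (U φ))) s = _
        rw [hU', hσ, hT, inv_inv]
        apply Finset.sum_congr rfl
        intro g _
        rw [hU, hσ]
        congr 3
        · rw [mul_assoc]
        · group
      have e2 : W φ s = T φ s - (U' * T * U) φ s := rfl
      rw [e2, e1, hT, ← Finset.sum_sub_distrib]
      apply Finset.sum_congr rfl
      intro g _
      rw [← sub_smul, ← Complex.ofReal_sub, ← mul_sub]
    have hw3 : ∀ s v, w s v = 0 ∨ w s v = 1 ∨ w s v = -1 := by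
      intro s v
      simp only [w]
      rcases hw₀ s v with h1 | h1 <;> rcases hw₀ (t * s) (t * v) with h2 | h2 <;>
        rw [h1, h2] <;> norm_num
    have hwrow : ∀ s, ∑ g ∈ E, F g * w s (s * g) ^ 2 ≤ r ^ 2 := by
      intro s
      have h1 : ∑ g ∈ E, F g * w s (s * g) ^ 2 ≤
          ∑ g ∈ E, (F g * w₀ s (s * g) + F g * w₀ (t * s) (t * s * g)) := by
        apply Finset.sum_le_sum
        intro g _
        rw [← mul_add]
        apply mul_le_mul_of_nonneg_left _ (hF0 g)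
        simp only [w]
        rw [mul_assoc t s g]
        rcases hw₀ s (s * g) with h1 | h1 <;> rcases hw₀ (t * s) (t * (s * g)) with h2 | h2 <;>
          rw [h1, h2] <;> norm_num
      rw [Finset.sum_add_distrib] at h1
      have h2 := hrow s
      have h3 := hrow (t * s)
      rw [hr2]
      linarith
    have hwcol : ∀ v, ∑ g ∈ E, F g * w (v * g⁻¹) v ^ 2 ≤ r ^ 2 := by
      intro v
      have h1 : ∑ g ∈ E, F g * w (v * g⁻¹) v ^ 2 ≤
          ∑ g ∈ E, (F g * (1 - w₀ (v * g⁻¹) v) + F g * (1 - w₀ (t * v * g⁻¹) (t * v))) := by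
        apply Finset.sum_le_sum
        intro g _
        rw [← mul_add]
        apply mul_le_mul_of_nonneg_left _ (hF0 g)
        simp only [w]
        rw [mul_assoc t v g⁻¹]
        rcases hw₀ (v * g⁻¹) v with h1 | h1 <;> rcases hw₀ (t * (v * g⁻¹)) (t * v) with h2 | h2 <;>
          rw [h1, h2] <;> norm_num
      rw [Finset.sum_add_distrib] at h1
      have h2 := hcol v
      have h3 := hcol (t * v)
      rw [hr2]
      linarith
    have hwabs : ∀ s v, |w s v| ≤ 1 := by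
      intro s v
      rcases hw3 s v with h1 | h1 | h1 <;> rw [h1] <;> norm_num
    have hWn : ‖W‖ ≤ 3 * r + r / (c + 1) * c := by
      apply localize E Y (fun g => Real.sqrt (F g)) (fun g => Real.sqrt_nonneg _) hY1 w hwabs W hWf
        K ξ hξ0 hξ1 (r / (c + 1)) (by positivity) hξ2 (3 * r) (by positivity)
      intro x φ hφ
      exact hYloc w hw3 hwrow hwcol x φ hφ
    have hWn' : ‖W‖ ≤ 4 * r := by
      have : r / (c + 1) * c ≤ r := by
        rw [div_mul_eq_mul_div, div_le_iff₀ (by positivity)]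
        nlinarith
      linarith
    have e3 : U * T - T * U = U * W := by
      rw [hW, mul_sub, ← mul_assoc, ← mul_assoc, hUU', one_mul]
    rw [e3]
    have hUn : ‖U‖ ≤ 1 := by
      refine ContinuousLinearMap.opNorm_le_bound _ zero_le_one fun x => ?_
      rw [one_mul]
      have h1 : ‖U x‖ ^ 2 = ‖x‖ ^ 2 := by
        rw [← inner_self_eq_norm_sq (𝕜 := ℂ), ← inner_self_eq_norm_sq (𝕜 := ℂ),
          inner_unitary (hσu t)]
      exact (pow_le_pow_iff_left₀ (norm_nonneg _) (norm_nonneg _) two_ne_zero).1 h1.le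
    calc ‖U * W‖ ≤ ‖U‖ * ‖W‖ := norm_mul_le _ _
      _ ≤ 1 * (4 * r) := mul_le_mul hUn hWn' (norm_nonneg _) zero_le_one
      _ = 4 * r := one_mul _
  have hfar : ∀ B : lp (fun _ : G => EuclideanSpace ℂ Q) 2 →L[ℂ]
      lp (fun _ : G => EuclideanSpace ℂ Q) 2, (∀ t, B * ((σ t : (lp (fun _ : G =>
      EuclideanSpace ℂ Q) 2 →L[ℂ] lp (fun _ : G => EuclideanSpace ℂ Q) 2)ˣ) :
      lp (fun _ : G => EuclideanSpace ℂ Q) 2 →L[ℂ] lp (fun _ : G => EuclideanSpace ℂ Q) 2) =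
      ((σ t : (lp (fun _ : G => EuclideanSpace ℂ Q) 2 →L[ℂ]
      lp (fun _ : G => EuclideanSpace ℂ Q) 2)ˣ) : lp (fun _ : G => EuclideanSpace ℂ Q) 2 →L[ℂ]
      lp (fun _ : G => EuclideanSpace ℂ Q) 2) * B) → 1 / 4 ≤ ‖T - B‖ := by
    intro B hB
    have h1 := far E F hF0 Y hY1 (1 / 4) (2 * δ) (by norm_num) (by positivity) (by linarith)
      hYtr w₀ hw₀ (by simpa using hrow 1) (by
        have h2 := hcol 1
        have h3 : ∑ g ∈ E, F g * (1 - w₀ (1 * g⁻¹) 1) = 1 - ∑ g ∈ E, F g * w₀ g⁻¹ 1 := by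
          calc _ = ∑ g ∈ E, (F g - F g * w₀ g⁻¹ 1) :=
                Finset.sum_congr rfl (fun g _ => by rw [one_mul]; ring)
            _ = _ := by rw [Finset.sum_sub_distrib, hF1']
        rw [h3] at h2
        linarith) T hT (fun t => ((σ t : (lp (fun _ : G =>
      EuclideanSpace ℂ Q) 2 →L[ℂ] lp (fun _ : G => EuclideanSpace ℂ Q) 2)ˣ) :
      lp (fun _ : G => EuclideanSpace ℂ Q) 2 →L[ℂ] lp (fun _ : G => EuclideanSpace ℂ Q) 2)) hσ B hB
    have h4 : Real.sqrt (2 * δ) ≤ 1 / 4 := by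
      rw [Real.sqrt_le_left (by norm_num)]
      linarith
    have h5 : 3 / 4 ≤ Real.sqrt ((1 - 2 * δ) * (1 - 1 / 4)) := by
      apply Real.le_sqrt_of_sq_le
      nlinarith
    linarith
  exact ⟨Q, i1, σ, T, hσ, fun t => (hcomm t).trans hδ2, hfar⟩

end Pool.Agent.Y324.DX
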