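import Mathlib
import Pool.Agent.Y324.DX.Core

/-!
# The infinite multiple of the regular representation
-/

set_option autoImplicit false

noncomputable section

namespace Pool.Agent.Y324.DX

open Pool.Agent.TH278.DX
open Pool.Agent.TH360.J4453 (wop)
open scoped ENNReal

/-- `ℓ²(G × ℕ)` -/
abbrev EN (G : Type) : Type := lp (fun _ : G × ℕ => ℂ) 2

variable {G : Type} [Group G]

theorem shift_inj (t : G) : Function.Injective (fun x : G × ℕ => ((t⁻¹ * x.1, x.2) : G × ℕ)) := by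
  rintro ⟨a, b⟩ ⟨c, d⟩ h
  simp only [Prod.mk.injEq, mul_right_inj] at h
  exact Prod.ext h.1 h.2

/-- the left translations on `ℓ²(G × ℕ)` -/
def regN : G →* (EN G →L[ℂ] EN G) where
  toFun t := wop (fun x : G × ℕ => ((t⁻¹ * x.1, x.2) : G × ℕ)) (shift_inj t)
    (fun _ => ContinuousLinearMap.id ℂ ℂ) 1 (fun _ => ContinuousLinearMap.norm_id_le) zero_le_one
  map_one' := by
    ext1 φ
    apply lp.ext
    funext s
    show φ (1⁻¹ * s.1, s.2) = φ s
    rw [inv_one, one_mul]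
  map_mul' t u := by
    ext1 φ
    apply lp.ext
    funext s
    show φ ((t * u)⁻¹ * s.1, s.2) = φ (u⁻¹ * (t⁻¹ * s.1), s.2)
    rw [mul_inv_rev, mul_assoc]

theorem regN_apply (t : G) (φ : EN G) (s : G × ℕ) : regN t φ s = φ (t⁻¹ * s.1, s.2) := rfl

theorem star_regN (t : G) : star (regN t : EN G →L[ℂ] EN G) = regN t⁻¹ := by
  rw [ContinuousLinearMap.star_eq_adjoint]
  symm
  rw [ContinuousLinearMap.eq_adjoint_iff]
  intro x y
  rw [lp.inner_eq_tsum, lp.inner_eq_tsum]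
  have h := Equiv.tsum_eq ((Equiv.mulLeft t).prodCongr (Equiv.refl ℕ))
    (fun s => inner ℂ ((x : G × ℕ → ℂ) s) ((y : G × ℕ → ℂ) (t⁻¹ * s.1, s.2)))
  simp only [regN_apply]
  rw [← h]
  refine tsum_congr fun s => ?_
  simp only [Equiv.prodCongr_apply, Prod.map, Equiv.coe_mulLeft, inv_inv, inv_mul_cancel_left,
    Equiv.refl_apply]

/-- The infinite multiple of the regular representation. -/
theorem exists_regN (G : Type) [Group G] :
    ∃ σ : G →* (EN G →L[ℂ] EN G)ˣ,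
      (∀ g, ((σ g : (EN G →L[ℂ] EN G)ˣ) : EN G →L[ℂ] EN G) ∈ unitary (EN G →L[ℂ] EN G)) ∧
      ∀ (t : G) (φ : EN G) (s : G × ℕ),
        ((σ t : (EN G →L[ℂ] EN G)ˣ) : EN G →L[ℂ] EN G) φ s = φ (t⁻¹ * s.1, s.2) := by
  refine ⟨(regN (G := G)).toHomUnits, fun g => ?_, fun t φ s => rfl⟩
  rw [MonoidHom.coe_toHomUnits, Unitary.mem_iff, star_regN, ← map_mul, ← map_mul,
    inv_mul_cancel, mul_inv_cancel, map_one]
  exact ⟨rfl, rfl⟩

/-- Finite multiples of the regular representation embed in the infinite one. -/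
theorem exists_emb (G Q : Type) [Fintype Q] :
    ∃ (P : EN G →L[ℂ] lp (fun _ : G => EuclideanSpace ℂ Q) 2)
      (V : lp (fun _ : G => EuclideanSpace ℂ Q) 2 →L[ℂ] EN G) (ι : Q → ℕ),
      Function.Injective ι ∧ ‖P‖ ≤ 1 ∧ ‖V‖ ≤ 1 ∧
      (∀ f s q, P f s q = f (s, ι q)) ∧
      (∀ φ s q, V φ (s, ι q) = φ s q) ∧
      (∀ φ s n, n ∉ Set.range ι → V φ (s, n) = 0) := by
  classical
  obtain ⟨ι, hι⟩ : ∃ ι : Q → ℕ, Function.Injective ι :=
    ⟨fun q => (Fintype.equivFin Q q : ℕ), fun a b h =>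
      (Fintype.equivFin Q).injective (Fin.ext h)⟩
  have h2 : (2 : ℝ≥0∞).toReal = (2 : ℝ) := by norm_num
  -- the compression
  have hP : ∀ (f : EN G) (S : Finset G),
      ∑ s ∈ S, ‖(WithLp.toLp 2 (fun q => f (s, ι q)) : EuclideanSpace ℂ Q)‖ ^ (2 : ℝ≥0∞).toReal
        ≤ (1 * ‖f‖) ^ (2 : ℝ≥0∞).toReal := by
    intro f S
    have h3 := lp.sum_rpow_le_norm_rpow (p := 2) (by norm_num) f
      ((S ×ˢ (Finset.univ : Finset Q)).image (fun x => ((x.1, ι x.2) : G × ℕ)))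
    rw [Finset.sum_image, Finset.sum_product] at h3
    · rw [one_mul]
      refine le_trans (le_of_eq ?_) h3
      refine Finset.sum_congr rfl fun s _ => ?_
      rw [h2, Real.rpow_two, EuclideanSpace.norm_sq_eq]
      refine Finset.sum_congr rfl fun q _ => ?_
      rw [Real.rpow_two]
    · rintro ⟨a, b⟩ _ ⟨c, d⟩ _ h
      simp only [Prod.mk.injEq] at h
      exact Prod.ext h.1 (hι h.2)
  let Pl : EN G →ₗ[ℂ] lp (fun _ : G => EuclideanSpace ℂ Q) 2 :=
    { toFun := fun f => ⟨fun s => WithLp.toLp 2 (fun q => f (s, ι q)), memℓp_gen' (hP f)⟩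
      map_add' := by
        intro f g
        apply lp.ext
        funext s
        ext q
        rfl
      map_smul' := by
        intro a f
        apply lp.ext
        funext s
        ext q
        rfl }
  let P : EN G →L[ℂ] lp (fun _ : G => EuclideanSpace ℂ Q) 2 :=
    Pl.mkContinuous 1 fun f => lp.norm_le_of_forall_sum_le (by norm_num) (by positivity) (hP f)
  -- the embedding
  let v : lp (fun _ : G => EuclideanSpace ℂ Q) 2 → G × ℕ → ℂ := fun φ x =>
    if h : ∃ q, ι q = x.2 then φ x.1 h.choose else 0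
  have hv1 : ∀ φ s q, v φ (s, ι q) = φ s q := by
    intro φ s q
    have h : ∃ q', ι q' = ι q := ⟨q, rfl⟩
    simp only [v, dif_pos h]
    rw [hι h.choose_spec]
  have hv2 : ∀ φ s n, n ∉ Set.range ι → v φ (s, n) = 0 := by
    intro φ s n hn
    have h : ¬ ∃ q', ι q' = n := fun ⟨q, hq⟩ => hn ⟨q, hq⟩
    simp only [v, dif_neg h]
  have hV : ∀ (φ : lp (fun _ : G => EuclideanSpace ℂ Q) 2) (S : Finset (G × ℕ)),
      ∑ x ∈ S, ‖v φ x‖ ^ (2 : ℝ≥0∞).toReal ≤ (1 * ‖φ‖) ^ (2 : ℝ≥0∞).toReal := by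
    intro φ S
    have h3 := lp.sum_rpow_le_norm_rpow (p := 2) (by norm_num) φ (S.image Prod.fst)
    rw [one_mul]
    refine le_trans ?_ h3
    have h4 : ∑ s ∈ S.image Prod.fst, ‖φ s‖ ^ (2 : ℝ≥0∞).toReal =
        ∑ x ∈ (S.image Prod.fst) ×ˢ (Finset.univ : Finset Q), ‖φ x.1 x.2‖ ^ 2 := by
      rw [Finset.sum_product]
      refine Finset.sum_congr rfl fun s _ => ?_
      rw [h2, Real.rpow_two, EuclideanSpace.norm_sq_eq]
    rw [h4]
    have h5 : ∑ x ∈ (S.image Prod.fst) ×ˢ (Finset.univ : Finset Q), ‖φ x.1 x.2‖ ^ 2 =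
        ∑ y ∈ ((S.image Prod.fst) ×ˢ (Finset.univ : Finset Q)).image
          (fun x => ((x.1, ι x.2) : G × ℕ)), ‖v φ y‖ ^ 2 := by
      rw [Finset.sum_image]
      · refine Finset.sum_congr rfl fun x _ => ?_
        rw [hv1]
      · rintro ⟨a, b⟩ _ ⟨c, d⟩ _ h
        simp only [Prod.mk.injEq] at h
        exact Prod.ext h.1 (hι h.2)
    rw [h5]
    have h6 : ∑ x ∈ S, ‖v φ x‖ ^ (2 : ℝ≥0∞).toReal =
        ∑ x ∈ S.filter (fun x => x.2 ∈ Set.range ι), ‖v φ x‖ ^ 2 := by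
      rw [Finset.sum_filter]
      refine Finset.sum_congr rfl fun x _ => ?_
      rw [h2, Real.rpow_two]
      split_ifs with hx
      · rfl
      · rw [show x = (x.1, x.2) from rfl, hv2 φ x.1 x.2 hx]
        simp
    rw [h6]
    apply Finset.sum_le_sum_of_subset_of_nonneg
    · intro x hx
      obtain ⟨hx1, ⟨q, hq⟩⟩ := Finset.mem_filter.1 hx
      refine Finset.mem_image.2 ⟨(x.1, q), Finset.mem_product.2
        ⟨Finset.mem_image.2 ⟨x, hx1, rfl⟩, Finset.mem_univ _⟩, ?_⟩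
      exact Prod.ext rfl hq
    · intro x _ _
      positivity
  let Vl : lp (fun _ : G => EuclideanSpace ℂ Q) 2 →ₗ[ℂ] EN G :=
    { toFun := fun φ => ⟨v φ, memℓp_gen' (hV φ)⟩
      map_add' := by
        intro f g
        apply lp.ext
        funext x
        show v (f + g) x = v f x + v g x
        by_cases hx : x.2 ∈ Set.range ι
        · obtain ⟨q, hq⟩ := hx
          obtain ⟨s, n⟩ := x
          dsimp only at hq
          subst hq
          rw [hv1, hv1, hv1]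
          rfl
        · obtain ⟨s, n⟩ := x
          rw [hv2 _ _ _ hx, hv2 _ _ _ hx, hv2 _ _ _ hx, add_zero]
      map_smul' := by
        intro a f
        apply lp.ext
        funext x
        show v (a • f) x = a • v f x
        by_cases hx : x.2 ∈ Set.range ι
        · obtain ⟨q, hq⟩ := hx
          obtain ⟨s, n⟩ := x
          dsimp only at hq
          subst hq
          rw [hv1, hv1]
          rfl
        · obtain ⟨s, n⟩ := x
          rw [hv2 _ _ _ hx, hv2 _ _ _ hx, smul_zero] }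
  let V : lp (fun _ : G => EuclideanSpace ℂ Q) 2 →L[ℂ] EN G :=
    Vl.mkContinuous 1 fun f => lp.norm_le_of_forall_sum_le (by norm_num) (by positivity) (hV f)
  refine ⟨P, V, ι, hι, LinearMap.mkContinuous_norm_le _ zero_le_one _,
    LinearMap.mkContinuous_norm_le _ zero_le_one _, fun f s q => rfl, hv1, hv2⟩

/-- For a nonamenable group with property A there are operators on the infinite multiple of the
regular representation which almost commute with it but are far from its commutant. -/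
theorem exists_almostN (hA : PropertyA G) (hG : ¬ Amenable G)
    (σ : G →* (EN G →L[ℂ] EN G)ˣ)
    (hσ : ∀ (t : G) (φ : EN G) (s : G × ℕ),
        ((σ t : (EN G →L[ℂ] EN G)ˣ) : EN G →L[ℂ] EN G) φ s = φ (t⁻¹ * s.1, s.2))
    (ε : ℝ) (hε : 0 < ε) :
    ∃ T : EN G →L[ℂ] EN G,
      (∀ t, ‖((σ t : (EN G →L[ℂ] EN G)ˣ) : EN G →L[ℂ] EN G) * T -
        T * ((σ t : (EN G →L[ℂ] EN G)ˣ) : EN G →L[ℂ] EN G)‖ ≤ ε) ∧
      ∀ B : EN G →L[ℂ] EN G, (∀ t, B * ((σ t : (EN G →L[ℂ] EN G)ˣ) : EN G →L[ℂ] EN G) =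
        ((σ t : (EN G →L[ℂ] EN G)ˣ) : EN G →L[ℂ] EN G) * B) → 1 / 4 ≤ ‖T - B‖ := by
  obtain ⟨Q, i1, τ, T, hτ, hT, hfar⟩ := exists_almost hA hG ε hε
  obtain ⟨P, V, ι, hι, hP1, hV1, hP, hV, hV0⟩ := exists_emb G Q
  have hPV : P ∘L V = ContinuousLinearMap.id ℂ _ := by
    ext1 φ
    apply lp.ext
    funext s
    ext q
    show P (V φ) s q = φ s q
    rw [hP, hV]
  have hPs : ∀ t, P ∘L ((σ t : (EN G →L[ℂ] EN G)ˣ) : EN G →L[ℂ] EN G) =
      ((τ t : (lp (fun _ : G => EuclideanSpace ℂ Q) 2 →L[ℂ]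
        lp (fun _ : G => EuclideanSpace ℂ Q) 2)ˣ) : lp (fun _ : G => EuclideanSpace ℂ Q) 2 →L[ℂ]
        lp (fun _ : G => EuclideanSpace ℂ Q) 2) ∘L P := by
    intro t
    ext1 φ
    apply lp.ext
    funext s
    ext q
    simp only [ContinuousLinearMap.comp_apply]
    rw [hP, hσ, hτ, hP]
  have hVs : ∀ t, ((σ t : (EN G →L[ℂ] EN G)ˣ) : EN G →L[ℂ] EN G) ∘L V =
      V ∘L ((τ t : (lp (fun _ : G => EuclideanSpace ℂ Q) 2 →L[ℂ]
        lp (fun _ : G => EuclideanSpace ℂ Q) 2)ˣ) : lp (fun _ : G => EuclideanSpace ℂ Q) 2 →L[ℂ]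
        lp (fun _ : G => EuclideanSpace ℂ Q) 2) := by
    intro t
    ext1 φ
    apply lp.ext
    funext x
    obtain ⟨s, n⟩ := x
    simp only [ContinuousLinearMap.comp_apply]
    rw [hσ]
    by_cases hn : n ∈ Set.range ι
    · obtain ⟨q, rfl⟩ := hn
      rw [hV, hV, hτ]
    · rw [hV0 _ _ _ hn, hV0 _ _ _ hn]
  refine ⟨V ∘L T ∘L P, fun t => ?_, fun B hB => ?_⟩
  · have e : ((σ t : (EN G →L[ℂ] EN G)ˣ) : EN G →L[ℂ] EN G) * (V ∘L T ∘L P) -
        (V ∘L T ∘L P) * ((σ t : (EN G →L[ℂ] EN G)ˣ) : EN G →L[ℂ] EN G) =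
        V ∘L (((τ t : (lp (fun _ : G => EuclideanSpace ℂ Q) 2 →L[ℂ]
        lp (fun _ : G => EuclideanSpace ℂ Q) 2)ˣ) : lp (fun _ : G => EuclideanSpace ℂ Q) 2 →L[ℂ]
        lp (fun _ : G => EuclideanSpace ℂ Q) 2) * T - T * ((τ t :
        (lp (fun _ : G => EuclideanSpace ℂ Q) 2 →L[ℂ]
        lp (fun _ : G => EuclideanSpace ℂ Q) 2)ˣ) : lp (fun _ : G => EuclideanSpace ℂ Q) 2 →L[ℂ]
        lp (fun _ : G => EuclideanSpace ℂ Q) 2)) ∘L P := by
      ext1 φ
      have h1 := congrArg (fun R => R (T (P φ))) (hVs t)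
      have h2 := congrArg (fun R => R φ) (hPs t)
      simp only [ContinuousLinearMap.comp_apply] at h1 h2
      show ((σ t : (EN G →L[ℂ] EN G)ˣ) : EN G →L[ℂ] EN G) (V (T (P φ))) -
        V (T (P (((σ t : (EN G →L[ℂ] EN G)ˣ) : EN G →L[ℂ] EN G) φ))) = V (_ - _)
      rw [h1, h2, map_sub]
      rfl
    rw [e]
    refine (ContinuousLinearMap.opNorm_comp_le _ _).trans ?_
    have h3 := ContinuousLinearMap.opNorm_comp_le (((τ t : (lp (fun _ : G => EuclideanSpace ℂ Q) 2 →L[ℂ]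
        lp (fun _ : G => EuclideanSpace ℂ Q) 2)ˣ) : lp (fun _ : G => EuclideanSpace ℂ Q) 2 →L[ℂ]
        lp (fun _ : G => EuclideanSpace ℂ Q) 2) * T - T * ((τ t :
        (lp (fun _ : G => EuclideanSpace ℂ Q) 2 →L[ℂ]
        lp (fun _ : G => EuclideanSpace ℂ Q) 2)ˣ) : lp (fun _ : G => EuclideanSpace ℂ Q) 2 →L[ℂ]
        lp (fun _ : G => EuclideanSpace ℂ Q) 2)) P
    have h4 := hT t
    calc _ ≤ 1 * (ε * 1) := by
          refine mul_le_mul hV1 (h3.trans ?_) (norm_nonneg _) zero_le_one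
          exact mul_le_mul h4 hP1 (norm_nonneg _) hε.le
      _ = ε := by ring
  · have h1 := hfar (P ∘L B ∘L V) (fun t => by
      ext1 φ
      have h2 := congrArg (fun R => R φ) (hVs t)
      have h3 := congrArg (fun R => R (B (V φ))) (hPs t)
      have h4 := congrArg (fun R => R (V φ)) (hB t)
      simp only [ContinuousLinearMap.comp_apply] at h2 h3
      show P (B (V (((τ t : (lp (fun _ : G => EuclideanSpace ℂ Q) 2 →L[ℂ]
        lp (fun _ : G => EuclideanSpace ℂ Q) 2)ˣ) : lp (fun _ : G => EuclideanSpace ℂ Q) 2 →L[ℂ]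
        lp (fun _ : G => EuclideanSpace ℂ Q) 2) φ))) = _
      rw [← h2]
      refine (congrArg P h4).trans ?_
      exact h3)
    have e : T - P ∘L B ∘L V = P ∘L ((V ∘L T ∘L P) - B) ∘L V := by
      ext1 φ
      have h5 := congrArg (fun R => R (T (P (V φ)))) hPV
      have h6 := congrArg (fun R => R φ) hPV
      simp only [ContinuousLinearMap.comp_apply, ContinuousLinearMap.id_apply] at h5 h6
      show T φ - P (B (V φ)) = P (V (T (P (V φ))) - B (V φ))
      rw [map_sub, h5, h6]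
    rw [e] at h1
    refine h1.trans ((ContinuousLinearMap.opNorm_comp_le _ _).trans ?_)
    have h7 := ContinuousLinearMap.opNorm_comp_le ((V ∘L T ∘L P) - B) V
    calc _ ≤ 1 * (‖(V ∘L T ∘L P) - B‖ * 1) := by
          refine mul_le_mul hP1 (h7.trans ?_) (norm_nonneg _) zero_le_one
          exact mul_le_mul_of_nonneg_left hV1 (norm_nonneg _)
      _ = _ := by ring

end Pool.Agent.Y324.DX
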