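import Mathlib
import Pool.Agent.Y324.DX.Emb

/-!
# Derivations, self-extensions and the distance to the commutant
-/

set_option autoImplicit false

noncomputable section

namespace Pool.Agent.Y324.DX

open Pool.Agent.TH278.DX
open Pool.Agent.TH993.DX
open scoped ENNReal

variable {G H : Type} [Group G] [NormedAddCommGroup H] [InnerProductSpace ℂ H]

/-- the operator of an invertible element -/
def op (S : (H →L[ℂ] H)ˣ) : H →L[ℂ] H := S

theorem op_mul (S T : (H →L[ℂ] H)ˣ) : op (S * T) = op S * op T := rfl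

/-- If all bounded derivations are inner, then the distance to the commutant is controlled by the
norm of the inner derivation (open mapping theorem). -/
theorem dist_of_inner [CompleteSpace H] (σ : G →* (H →L[ℂ] H)ˣ) (c : ℝ)
    (hσ : ∀ g, ‖op (σ g)‖ ≤ c)
    (h : ∀ D : G → (H →L[ℂ] H), (∀ g k, D (g * k) = op (σ g) * D k + D g * op (σ k)) →
      (∃ C : ℝ, ∀ g, ‖D g‖ ≤ C) → ∃ T : H →L[ℂ] H, ∀ g, D g = op (σ g) * T - T * op (σ g)) :
    ∃ K : ℝ, ∀ (T : H →L[ℂ] H) (d : ℝ), (∀ g, ‖op (σ g) * T - T * op (σ g)‖ ≤ d) →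
      ∃ B : H →L[ℂ] H, (∀ g, B * op (σ g) = op (σ g) * B) ∧ ‖T - B‖ ≤ K * d := by
  -- the Banach space of bounded functions
  have hc0 : 0 ≤ c := (norm_nonneg _).trans (hσ 1)
  have hmem : ∀ (F : G → (H →L[ℂ] H)) (C : ℝ), (∀ g, ‖F g‖ ≤ C) → Memℓp F ⊤ := by
    intro F C hF
    apply memℓp_infty
    exact ⟨C, by rintro _ ⟨g, rfl⟩; exact hF g⟩
  have hin : ∀ (T : H →L[ℂ] H) (g : G), ‖op (σ g) * T - T * op (σ g)‖ ≤ 2 * c * ‖T‖ := by
    intro T g
    have h1 := norm_mul_le (op (σ g)) T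
    have h2 := norm_mul_le T (op (σ g))
    have h3 := norm_sub_le (op (σ g) * T) (T * op (σ g))
    have h4 := mul_le_mul_of_nonneg_right (hσ g) (norm_nonneg T)
    nlinarith [norm_nonneg T]
  let Φl : (H →L[ℂ] H) →ₗ[ℂ] lp (fun _ : G => (H →L[ℂ] H)) ⊤ :=
    { toFun := fun T => ⟨fun g => op (σ g) * T - T * op (σ g), hmem _ _ (hin T)⟩
      map_add' := by
        intro S T
        apply lp.ext
        funext g
        show op (σ g) * (S + T) - (S + T) * op (σ g) = (op (σ g) * S - S * op (σ g)) +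
          (op (σ g) * T - T * op (σ g))
        rw [mul_add, add_mul]
        abel
      map_smul' := by
        intro a T
        apply lp.ext
        funext g
        show op (σ g) * (a • T) - (a • T) * op (σ g) = a • (op (σ g) * T - T * op (σ g))
        rw [mul_smul_comm, smul_mul_assoc, smul_sub] }
  let Φ : (H →L[ℂ] H) →L[ℂ] lp (fun _ : G => (H →L[ℂ] H)) ⊤ :=
    Φl.mkContinuous (2 * c) fun T => lp.norm_le_of_forall_le (by positivity) (hin T)
  let Der : Submodule ℂ (lp (fun _ : G => (H →L[ℂ] H)) ⊤) :=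
    { carrier := {D | ∀ g k, (D : G → (H →L[ℂ] H)) (g * k) = op (σ g) * D k + D g * op (σ k)}
      add_mem' := by
        intro D E hD hE g k
        show D (g * k) + E (g * k) = op (σ g) * (D k + E k) + (D g + E g) * op (σ k)
        rw [hD, hE, mul_add, add_mul]
        abel
      zero_mem' := by
        intro g k
        show (0 : H →L[ℂ] H) = op (σ g) * 0 + 0 * op (σ k)
        simp
      smul_mem' := by
        intro a D hD g k
        show a • D (g * k) = op (σ g) * (a • D k) + (a • D g) * op (σ k)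
        rw [hD, mul_smul_comm, smul_mul_assoc, smul_add] }
  have hclosed : IsClosed (Der : Set (lp (fun _ : G => (H →L[ℂ] H)) ⊤)) := by
    have hev : ∀ g : G, Continuous fun D : lp (fun _ : G => (H →L[ℂ] H)) ⊤ =>
        (D : G → (H →L[ℂ] H)) g := by
      intro g
      refine LipschitzWith.continuous (K := 1) (LipschitzWith.of_dist_le_mul fun D E => ?_)
      rw [dist_eq_norm, dist_eq_norm, NNReal.coe_one, one_mul]
      exact lp.norm_apply_le_norm (by simp) (D - E) g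
    have : (Der : Set (lp (fun _ : G => (H →L[ℂ] H)) ⊤)) =
        ⋂ (g : G) (k : G), {D : lp (fun _ : G => (H →L[ℂ] H)) ⊤ |
          (D : G → (H →L[ℂ] H)) (g * k) = op (σ g) * D k + D g * op (σ k)} := by
      ext D
      simp only [Set.mem_iInter]
      rfl
    rw [this]
    refine isClosed_iInter fun g => isClosed_iInter fun k => ?_
    exact isClosed_eq (hev _) (((continuous_const.mul (hev _))).add ((hev _).mul continuous_const))
  have hΦ : ∀ T, Φ T ∈ Der := by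
    intro T g k
    show op (σ (g * k)) * T - T * op (σ (g * k)) = op (σ g) * (op (σ k) * T - T * op (σ k)) +
      (op (σ g) * T - T * op (σ g)) * op (σ k)
    rw [map_mul, op_mul]
    noncomm_ring
  have : CompleteSpace Der := hclosed.completeSpace_coe
  let Ψ : (H →L[ℂ] H) →L[ℂ] Der := Φ.codRestrict Der hΦ
  have hsurj : Function.Surjective Ψ := by
    rintro ⟨D, hD⟩
    obtain ⟨T, hT⟩ := h (fun g => (D : G → (H →L[ℂ] H)) g) hD
      ⟨‖D‖, fun g => lp.norm_apply_le_norm (by simp) D g⟩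
    refine ⟨T, ?_⟩
    apply Subtype.ext
    apply lp.ext
    funext g
    exact (hT g).symm
  obtain ⟨C, hC, hpre⟩ := Ψ.exists_preimage_norm_le hsurj
  refine ⟨C, fun T d hd => ?_⟩
  obtain ⟨T', hT', hn⟩ := hpre (Ψ T)
  have hd0 : 0 ≤ d := (norm_nonneg _).trans (hd 1)
  refine ⟨T - T', fun g => ?_, ?_⟩
  · have h1 : (Φ T' : G → (H →L[ℂ] H)) g = (Φ T : G → (H →L[ℂ] H)) g := by
      have h2 := congrArg (fun D : Der => ((D : lp (fun _ : G => (H →L[ℂ] H)) ⊤) :
        G → (H →L[ℂ] H)) g) hT'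
      exact h2
    have h3 : op (σ g) * T' - T' * op (σ g) = op (σ g) * T - T * op (σ g) := h1
    rw [sub_mul, mul_sub]
    rw [sub_eq_sub_iff_add_eq_add] at h3 ⊢
    rw [add_comm, h3, add_comm]
  · rw [sub_sub_cancel]
    refine hn.trans (mul_le_mul_of_nonneg_left ?_ hC.le)
    show ‖(Φ T)‖ ≤ d
    exact lp.norm_le_of_forall_le hd0 hd

/-- A unitarizable self-extension of a unitary representation gives an inner derivation. -/
theorem inner_of_inv [CompleteSpace H] (M : ℝ)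
    (σ : G →* (H →L[ℂ] H)ˣ)
    (hσ : ∀ g, ((σ g : (H →L[ℂ] H)ˣ) : H →L[ℂ] H) ∈ unitary (H →L[ℂ] H))
    (D : G → (H →L[ℂ] H))
    (ρ : G →* (WithLp 2 (H × H) →L[ℂ] WithLp 2 (H × H))ˣ)
    (hρ : ∀ g, ((ρ g : (WithLp 2 (H × H) →L[ℂ] WithLp 2 (H × H))ˣ) :
      WithLp 2 (H × H) →L[ℂ] WithLp 2 (H × H)) =
      bl ((σ g : (H →L[ℂ] H)ˣ) : H →L[ℂ] H) (D g) ((σ g : (H →L[ℂ] H)ˣ) : H →L[ℂ] H))
    (hI : Inv ρ 1 M) :
    ∃ T : H →L[ℂ] H, ∀ g, D g = op (σ g) * T - T * op (σ g) := by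
  obtain ⟨A, hs, hlow, hup, hinv⟩ := hI
  set a11 : H →L[ℂ] H := p1 ∘L A ∘L i1 with ha11
  set a12 : H →L[ℂ] H := p1 ∘L A ∘L i2 with ha12
  have h11 : ∀ x y, inner ℂ (a11 x) y = inner ℂ (A (i1 x)) (i1 y) := fun x y => by
    rw [inner_i1]; rfl
  have h12 : ∀ x y, inner ℂ (a12 x) y = inner ℂ (A (i2 x)) (i1 y) := fun x y => by
    rw [inner_i1]; rfl
  obtain ⟨B, hB1, hB2, hB3⟩ := exists_inv a11 (fun x => by
    rw [h11, ← norm_i1]
    have := hlow (i1 x)
    rwa [one_mul] at this)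
  refine ⟨B * a12, fun g => ?_⟩
  set U : H →L[ℂ] H := ((σ g : (H →L[ℂ] H)ˣ) : H →L[ℂ] H) with hU
  have hUu := hσ g
  rw [← hU] at hUu
  have hinv' : ∀ x y, inner ℂ (A (bl U (D g) U x)) (bl U (D g) U y)
      = inner ℂ (A x) y := fun x y => by
    have := hinv g x y
    rwa [hρ g] at this
  have e1 : a11 * U = U * a11 := by
    ext x
    refine ext_inner_right ℂ fun y => ?_
    obtain ⟨z, rfl⟩ := surj_unitary hUu y
    change inner ℂ (a11 (U x)) (U z) = inner ℂ (U (a11 x)) (U z)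
    rw [TH993.DX.inner_unitary hUu, h11, h11, ← bl_i1 U (D g) U, ← bl_i1 U (D g) U,
      hinv']
  have e2 : a11 * D g + a12 * U = U * a12 := by
    ext x
    refine ext_inner_right ℂ fun y => ?_
    obtain ⟨z, rfl⟩ := surj_unitary hUu y
    change inner ℂ (a11 (D g x) + a12 (U x)) (U z) = inner ℂ (U (a12 x)) (U z)
    rw [TH993.DX.inner_unitary hUu, inner_add_left, h11, h12, h12, ← hinv' (i2 x) (i1 z), bl_i2,
      bl_i1, map_add, inner_add_left]
  have e3 : B * U = U * B := by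
    calc B * U = B * (U * a11) * B := by rw [mul_assoc, mul_assoc, hB2, mul_one]
      _ = B * (a11 * U) * B := by rw [e1]
      _ = (B * a11) * U * B := by noncomm_ring
      _ = U * B := by rw [hB1, one_mul]
  have e4 : B * (U * a12) = D g + B * (a12 * U) := by
    rw [← e2, mul_add, ← mul_assoc, hB1, one_mul]
  show D g = U * (B * a12) - B * a12 * U
  rw [← mul_assoc, ← e3, mul_assoc, e4, mul_assoc]
  abel

/-- The homomorphism of a derivation. -/
def homD (σ : G →* (H →L[ℂ] H)ˣ) (D : G → (H →L[ℂ] H))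
    (hD : ∀ g k, D (g * k) = op (σ g) * D k + D g * op (σ k)) :
    G →* (WithLp 2 (H × H) →L[ℂ] WithLp 2 (H × H)) where
  toFun g := bl ((σ g : (H →L[ℂ] H)ˣ) : H →L[ℂ] H) (D g) ((σ g : (H →L[ℂ] H)ˣ) : H →L[ℂ] H)
  map_one' := by
    have h1 : D 1 = 0 := by
      have := hD 1 1
      rw [mul_one, map_one] at this
      have h2 : op (1 : (H →L[ℂ] H)ˣ) = 1 := rfl
      rw [h2, one_mul, mul_one] at this
      exact left_eq_add.1 this
    rw [h1, map_one, Units.val_one]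
    exact bl_one
  map_mul' g h := by
    rw [bl_mul, hD]
    simp only [map_mul, Units.val_mul]
    rfl

theorem norm_bl_le' [CompleteSpace H] {U D : H →L[ℂ] H} (hU : U ∈ unitary (H →L[ℂ] H)) :
    ‖bl U D U‖ ≤ 1 + ‖D‖ := by
  refine ContinuousLinearMap.opNorm_le_bound _ (by positivity) fun v => ?_
  have h1 : bl U D U v = bl U 0 U v + i1 (D v.snd) := by
    apply ext2
    · rw [bl_fst]
      show U v.fst + D v.snd = (U v.fst + (0 : H →L[ℂ] H) v.snd) + D v.snd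
      rw [zero_apply, add_zero]
    · rw [bl_snd]
      show U v.snd = U v.snd + 0
      rw [add_zero]
  have h2 : ‖bl U 0 U v‖ = ‖v‖ := by
    refine (sq_eq_sq₀ (norm_nonneg _) (norm_nonneg _)).1 ?_
    rw [WithLp.prod_norm_sq_eq_of_L2, WithLp.prod_norm_sq_eq_of_L2, bl_fst, bl_snd,
      norm_unitary hU, zero_apply, add_zero, norm_unitary hU]
  have h3 : ‖(i1 (D v.snd) : WithLp 2 (H × H))‖ ≤ ‖D‖ * ‖v‖ := by
    have h4 : ‖(i1 (D v.snd) : WithLp 2 (H × H))‖ = ‖D v.snd‖ :=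
      (sq_eq_sq₀ (norm_nonneg _) (norm_nonneg _)).1 (norm_i1 _)
    rw [h4]
    refine (D.le_opNorm _).trans (mul_le_mul_of_nonneg_left ?_ (norm_nonneg _))
    refine (sq_le_sq₀ (norm_nonneg _) (norm_nonneg _)).1 ?_
    rw [WithLp.prod_norm_sq_eq_of_L2 v]
    linarith [sq_nonneg ‖v.fst‖]
  rw [h1]
  refine (norm_add_le _ _).trans ?_
  rw [h2]
  linarith

/-- If all self-extensions of `σ` bounded by some `c > 1` are unitarizable, then the bounded
derivations are inner. -/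
theorem inner_of_ext [CompleteSpace H] (σ : G →* (H →L[ℂ] H)ˣ)
    (hσ : ∀ g, ((σ g : (H →L[ℂ] H)ˣ) : H →L[ℂ] H) ∈ unitary (H →L[ℂ] H)) (c : ℝ) (hc : 1 < c)
    (h : ∀ ρ : G →* (WithLp 2 (H × H) →L[ℂ] WithLp 2 (H × H))ˣ, Bdd ρ c →
      (∀ g, ∃ D : H →L[ℂ] H, ((ρ g : (WithLp 2 (H × H) →L[ℂ] WithLp 2 (H × H))ˣ) :
        WithLp 2 (H × H) →L[ℂ] WithLp 2 (H × H)) =
        bl ((σ g : (H →L[ℂ] H)ˣ) : H →L[ℂ] H) D ((σ g : (H →L[ℂ] H)ˣ) : H →L[ℂ] H)) →
      ∃ M : ℝ, Inv ρ 1 M)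
    (D : G → (H →L[ℂ] H)) (hD : ∀ g k, D (g * k) = op (σ g) * D k + D g * op (σ k))
    (hb : ∃ C : ℝ, ∀ g, ‖D g‖ ≤ C) :
    ∃ T : H →L[ℂ] H, ∀ g, D g = op (σ g) * T - T * op (σ g) := by
  obtain ⟨C, hC⟩ := hb
  have hC0 : 0 ≤ C := (norm_nonneg _).trans (hC 1)
  set t : ℝ := (c - 1) / (C + 1) with ht
  have ht0 : 0 < t := by
    have : 0 < c - 1 := by linarith
    positivity
  have htC : t * C ≤ c - 1 := by
    rw [ht, div_mul_eq_mul_div, div_le_iff₀ (by linarith)]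
    nlinarith
  set D' : G → (H →L[ℂ] H) := fun g => ((t : ℝ) : ℂ) • D g with hD'
  have hD'' : ∀ g k, D' (g * k) = op (σ g) * D' k + D' g * op (σ k) := by
    intro g k
    simp only [hD']
    rw [hD, smul_add, mul_smul_comm, smul_mul_assoc]
  have hbd : ∀ g, ‖D' g‖ ≤ c - 1 := by
    intro g
    simp only [hD']
    rw [norm_smul, Complex.norm_real, Real.norm_of_nonneg ht0.le]
    exact (mul_le_mul_of_nonneg_left (hC g) ht0.le).trans htC
  obtain ⟨M, hM⟩ := h (homD σ D' hD'').toHomUnits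
    (fun g => (norm_bl_le' (hσ g)).trans (by linarith [hbd g]))
    (fun g => ⟨D' g, rfl⟩)
  obtain ⟨T, hT⟩ := inner_of_inv M σ hσ D' _ (fun g => rfl) hM
  have htc : ((t : ℝ) : ℂ) ≠ 0 := Complex.ofReal_ne_zero.2 ht0.ne'
  refine ⟨(((t : ℝ) : ℂ))⁻¹ • T, fun g => ?_⟩
  rw [mul_smul_comm, smul_mul_assoc, ← smul_sub, ← hT g]
  simp only [hD']
  rw [smul_smul, inv_mul_cancel₀ htc, one_smul]

/-- Unitarizability of the representations bounded by `c` passes to sections. -/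
theorem section_c {Q : Type} [Group Q] (c : ℝ)
    (hU : ∀ (H : Type) [NormedAddCommGroup H] [InnerProductSpace ℂ H] [CompleteSpace H]
        (π : G →* (H →L[ℂ] H)ˣ), Bdd π c → ∃ κ : ℝ, Sim π κ)
    (Λ : Subgroup G) (φ : Λ →* Q) (hφ : Function.Surjective φ) :
    ∀ (H : Type) [NormedAddCommGroup H] [InnerProductSpace ℂ H] [CompleteSpace H]
        (π : Q →* (H →L[ℂ] H)ˣ), Bdd π c → ∃ κ : ℝ, Sim π κ := by
  intro H _ _ _ π hπ
  obtain ⟨H', _, _, _, π', J, hπ', hJ⟩ :=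
    Pool.Agent.TH360.J4453.induce Λ (π.comp φ) c (fun l => hπ (φ l))
  obtain ⟨M, hM⟩ := (inv_iff_sim π').2 (hU H' π' hπ')
  have h2 : Inv (π.comp φ) 1 M := inv_restrict (fun l : Λ => (l : G)) (π.comp φ) π' J hJ 1 M hM
  apply (inv_iff_sim π).1
  refine ⟨M, ?_⟩
  obtain ⟨A, a1, a2, a3, a4⟩ := h2
  refine ⟨A, a1, a2, a3, fun p x y => ?_⟩
  obtain ⟨l, rfl⟩ := hφ p
  exact a4 l x y

end Pool.Agent.Y324.DX
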