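import Mathlib
import Pool.Agent.H770R2.Kad.HAsm

/-!
# From a bound by a unitary representation to unitarizability (Kadison's similarity theorem)
-/

set_option autoImplicit false

noncomputable section

namespace Pool.Agent.Y324.DX

variable {G : Type} [Group G]

section defs

variable {H : Type} [NormedAddCommGroup H] [InnerProductSpace ℂ H]

/-- the operator `π(g)` -/
def opr (π : G →* (H →L[ℂ] H)ˣ) (g : G) : H →L[ℂ] H := (π g : (H →L[ℂ] H)ˣ)

/-- the operator `∑ f(g) π(g)` -/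
def opl (π : G →* (H →L[ℂ] H)ˣ) : (G →₀ ℂ) →ₗ[ℂ] (H →L[ℂ] H) :=
  Finsupp.linearCombination ℂ (opr π)

theorem opr_mul (π : G →* (H →L[ℂ] H)ˣ) (g k : G) : opr π (g * k) = opr π g * opr π k := by
  simp [opr, map_mul]

theorem opr_one (π : G →* (H →L[ℂ] H)ˣ) : opr π 1 = 1 := by
  simp [opr]

theorem opl_single (π : G →* (H →L[ℂ] H)ˣ) (g : G) (a : ℂ) :
    opl π (Finsupp.single g a) = a • opr π g := by
  simp [opl, Finsupp.linearCombination_single]

end defs

variable {H K : Type} [NormedAddCommGroup H] [InnerProductSpace ℂ H] [CompleteSpace H]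
  [NormedAddCommGroup K] [InnerProductSpace ℂ K] [CompleteSpace K]

theorem star_opr {σ : G →* (K →L[ℂ] K)ˣ} (hσ : ∀ g, opr σ g ∈ unitary (K →L[ℂ] K)) (g : G) :
    star (opr σ g) = opr σ g⁻¹ := by
  have h1 := (Unitary.mem_iff.1 (hσ g)).1
  have h2 : opr σ g * opr σ g⁻¹ = 1 := by
    rw [← opr_mul, mul_inv_cancel, opr_one]
  calc star (opr σ g) = star (opr σ g) * (opr σ g * opr σ g⁻¹) := by rw [h2, mul_one]
    _ = opr σ g⁻¹ := by rw [← mul_assoc, h1, one_mul]

/-- The linear span of `σ(G)` as a star subalgebra. -/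
def spanAlg (σ : G →* (K →L[ℂ] K)ˣ) (hσ : ∀ g, opr σ g ∈ unitary (K →L[ℂ] K)) :
    StarSubalgebra ℂ (K →L[ℂ] K) where
  carrier := (LinearMap.range (opl σ) : Set (K →L[ℂ] K))
  add_mem' := fun ha hb => (LinearMap.range (opl σ)).add_mem ha hb
  mul_mem' := by
    rintro _ _ ⟨f, rfl⟩ ⟨f', rfl⟩
    induction f using Finsupp.induction_linear with
    | zero => exact ⟨0, by simp⟩
    | add f₁ f₂ h₁ h₂ =>
      rw [map_add, add_mul]
      exact (LinearMap.range (opl σ)).add_mem h₁ h₂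
    | single g a =>
      induction f' using Finsupp.induction_linear with
      | zero => exact ⟨0, by simp⟩
      | add f₁ f₂ h₁ h₂ =>
        rw [map_add, mul_add]
        exact (LinearMap.range (opl σ)).add_mem h₁ h₂
      | single k b =>
        refine ⟨Finsupp.single (g * k) (a * b), ?_⟩
        rw [opl_single, opl_single, opl_single, opr_mul, smul_mul_assoc, mul_smul_comm, smul_smul]
  algebraMap_mem' := by
    intro r
    refine ⟨Finsupp.single 1 r, ?_⟩
    rw [opl_single, opr_one, Algebra.algebraMap_eq_smul_one]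
  star_mem' := by
    rintro _ ⟨f, rfl⟩
    induction f using Finsupp.induction_linear with
    | zero => exact ⟨0, by simp⟩
    | add f₁ f₂ h₁ h₂ =>
      rw [map_add, star_add]
      exact (LinearMap.range (opl σ)).add_mem h₁ h₂
    | single g a =>
      refine ⟨Finsupp.single g⁻¹ (star a), ?_⟩
      rw [opl_single, opl_single, star_smul, star_opr hσ]

theorem opl_mem (σ : G →* (K →L[ℂ] K)ˣ) (hσ : ∀ g, opr σ g ∈ unitary (K →L[ℂ] K)) (f : G →₀ ℂ) :
    opl σ f ∈ (spanAlg σ hσ).topologicalClosure :=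
  (spanAlg σ hσ).le_topologicalClosure ⟨f, rfl⟩

/-- The linear map `f ↦ σ(f)` into the closure. -/
def emb (σ : G →* (K →L[ℂ] K)ˣ) (hσ : ∀ g, opr σ g ∈ unitary (K →L[ℂ] K)) :
    (G →₀ ℂ) →ₗ[ℂ] (spanAlg σ hσ).topologicalClosure where
  toFun f := ⟨opl σ f, opl_mem σ hσ f⟩
  map_add' f f' := Subtype.ext (map_add _ _ _)
  map_smul' a f := Subtype.ext (map_smul _ _ _)

theorem emb_dense (σ : G →* (K →L[ℂ] K)ˣ) (hσ : ∀ g, opr σ g ∈ unitary (K →L[ℂ] K)) :
    DenseRange (emb σ hσ) := by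
  intro x
  rw [mem_closure_iff_seq_limit]
  have hx : (x : K →L[ℂ] K) ∈ closure ((spanAlg σ hσ : StarSubalgebra ℂ (K →L[ℂ] K)) :
      Set (K →L[ℂ] K)) := x.2
  obtain ⟨y, hy, hlim⟩ := mem_closure_iff_seq_limit.1 hx
  choose f hf using hy
  refine ⟨fun n => emb σ hσ (f n), fun n => ⟨f n, rfl⟩, ?_⟩
  rw [tendsto_subtype_rng]
  refine hlim.congr fun n => ?_
  exact (hf n).symm

theorem emb_mul (σ : G →* (K →L[ℂ] K)ˣ) (hσ : ∀ g, opr σ g ∈ unitary (K →L[ℂ] K)) (g k : G)
    (a b : ℂ) : emb σ hσ (Finsupp.single g a) * emb σ hσ (Finsupp.single k b) =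
      emb σ hσ (Finsupp.single (g * k) (a * b)) := by
  apply Subtype.ext
  show opl σ (Finsupp.single g a) * opl σ (Finsupp.single k b) = opl σ (Finsupp.single (g * k) (a * b))
  rw [opl_single, opl_single, opl_single, opr_mul, smul_mul_assoc, mul_smul_comm, smul_smul]

/-- A homomorphism dominated by a unitary representation extends to a C*-algebra. -/
theorem extend_hom (σ : G →* (K →L[ℂ] K)ˣ) (hσ : ∀ g, opr σ g ∈ unitary (K →L[ℂ] K))
    (π : G →* (H →L[ℂ] H)ˣ) (C : ℝ) (h : ∀ f : G →₀ ℂ, ‖opl π f‖ ≤ C * ‖opl σ f‖) :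
    ∃ (A : Type) (_ : CStarAlgebra A) (u : A →ₐ[ℂ] (H →L[ℂ] H)) (j : G → A),
      (∀ x, ‖u x‖ ≤ C * ‖x‖) ∧ (∀ g, u (j g) = opr π g) ∧ (∀ g, star (j g) = j g⁻¹) := by
  have hcl : IsClosed ((spanAlg σ hσ).topologicalClosure : Set (K →L[ℂ] K)) :=
    (spanAlg σ hσ).isClosed_topologicalClosure
  letI : CStarAlgebra (spanAlg σ hσ).topologicalClosure :=
    StarSubalgebra.cstarAlgebra (h_closed := hcl) (spanAlg σ hσ).topologicalClosure
  have hd := emb_dense σ hσ
  have hn : ∀ f : G →₀ ℂ, ‖opl π f‖ ≤ C * ‖emb σ hσ f‖ := h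
  set v : (spanAlg σ hσ).topologicalClosure →L[ℂ] (H →L[ℂ] H) :=
    (opl π).extendOfNorm (emb σ hσ) with hv
  have hv1 : ∀ f, v (emb σ hσ f) = opl π f := fun f => LinearMap.extendOfNorm_eq hd ⟨C, hn⟩ f
  have hmul : ∀ x y, v (x * y) = v x * v y := by
    intro x y
    refine hd.induction_on₂ (p := fun x y => v (x * y) = v x * v y) ?_ ?_ x y
    · apply isClosed_eq
      · exact v.continuous.comp (continuous_fst.mul continuous_snd)
      · exact (v.continuous.comp continuous_fst).mul (v.continuous.comp continuous_snd)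
    · intro f f'
      induction f using Finsupp.induction_linear with
      | zero => simp
      | add f₁ f₂ h₁ h₂ => rw [map_add, add_mul, map_add, h₁, h₂, map_add, add_mul]
      | single g a =>
        induction f' using Finsupp.induction_linear with
        | zero => simp
        | add f₁ f₂ h₁ h₂ => rw [map_add, mul_add, map_add, h₁, h₂, map_add, mul_add]
        | single k b =>
          rw [emb_mul, hv1, hv1, hv1, opl_single, opl_single, opl_single, opr_mul, smul_mul_assoc,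
            mul_smul_comm, smul_smul]
  have hone : v 1 = 1 := by
    have h1 : (1 : (spanAlg σ hσ).topologicalClosure) = emb σ hσ (Finsupp.single 1 1) := by
      apply Subtype.ext
      show (1 : K →L[ℂ] K) = opl σ (Finsupp.single 1 1)
      rw [opl_single, opr_one, one_smul]
    rw [h1, hv1, opl_single, opr_one, one_smul]
  let u : (spanAlg σ hσ).topologicalClosure →ₐ[ℂ] (H →L[ℂ] H) :=
    AlgHom.ofLinearMap v.toLinearMap hone hmul
  refine ⟨(spanAlg σ hσ).topologicalClosure, inferInstance, u,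
    fun g => emb σ hσ (Finsupp.single g 1), fun x => ?_, fun g => ?_, fun g => ?_⟩
  · exact LinearMap.norm_extendOfNorm_apply_le hd C hn x
  · show v _ = _
    rw [hv1, opl_single, one_smul]
  · apply Subtype.ext
    show star (opl σ (Finsupp.single g 1)) = opl σ (Finsupp.single g⁻¹ 1)
    rw [opl_single, opl_single, one_smul, one_smul, star_opr hσ]

/-- A homomorphism dominated by a unitary representation is unitarizable, with a bound. -/
theorem unit_of_dominated (σ : G →* (K →L[ℂ] K)ˣ) (hσ : ∀ g, opr σ g ∈ unitary (K →L[ℂ] K))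
    (π : G →* (H →L[ℂ] H)ˣ) (C : ℝ) (hC : 1 ≤ C)
    (h : ∀ f : G →₀ ℂ, ‖opl π f‖ ≤ C * ‖opl σ f‖) :
    ∃ S : (H →L[ℂ] H)ˣ,
      ‖((S : (H →L[ℂ] H)ˣ) : H →L[ℂ] H)‖ ^ 2 ≤ 864 * (2 * C) ^ 29 ∧
      ‖((S⁻¹ : (H →L[ℂ] H)ˣ) : H →L[ℂ] H)‖ ^ 2 ≤ 864 * (2 * C) ^ 29 ∧
      ∀ g, ((S * π g * S⁻¹ : (H →L[ℂ] H)ˣ) : H →L[ℂ] H) ∈ unitary (H →L[ℂ] H) := by
  obtain ⟨A, _, u, j, hu, huj, hj⟩ := extend_hom σ hσ π C h
  obtain ⟨S, S', h1, h2, h3, h4, h5⟩ := H770R2.Kad.fin_similar A H u.toLinearMap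
    ⟨fun a b => map_mul u a b, map_one u⟩ C hC hu
  refine ⟨⟨S, S', h1, h2⟩, h3, h4, fun g => ?_⟩
  have hstar : star (S * opr π g * S') = S * opr π g⁻¹ * S' := by
    have h6 := h5 (j g)
    rw [hj] at h6
    have h7 : u.toLinearMap (j g) = opr π g := huj g
    have h8 : u.toLinearMap (j g⁻¹) = opr π g⁻¹ := huj g⁻¹
    rw [h7, h8] at h6
    exact h6
  have hp : ∀ a b : G, (S * opr π a * S') * (S * opr π b * S') = S * opr π (a * b) * S' := by
    intro a b
    rw [opr_mul]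
    calc (S * opr π a * S') * (S * opr π b * S') = S * opr π a * (S' * S) * opr π b * S' := by
          noncomm_ring
      _ = S * (opr π a * opr π b) * S' := by rw [h2, mul_one, ← mul_assoc]
  show S * opr π g * S' ∈ unitary (H →L[ℂ] H)
  rw [Unitary.mem_iff, hstar, hp, hp, inv_mul_cancel, mul_inv_cancel, opr_one, mul_one, h1]
  exact ⟨rfl, rfl⟩

end Pool.Agent.Y324.DX
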