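import Mathlib
import Pool.Agent.Y324.DX.Ext

/-!
# Direct sums of unitary representations and the uniform boundedness principle
-/

set_option autoImplicit false

noncomputable section

namespace Pool.Agent.Y324.DX

open scoped ENNReal

section dsum

variable {I : Type} {K : I → Type} [∀ i, NormedAddCommGroup (K i)]
  [∀ i, InnerProductSpace ℂ (K i)]

theorem dmap_sum (T : ∀ i, K i →L[ℂ] K i) (hT : ∀ i x, ‖T i x‖ = ‖x‖) (f : lp K 2)
    (s : Finset I) : ∑ i ∈ s, ‖T i (f i)‖ ^ (2 : ℝ≥0∞).toReal ≤ (1 * ‖f‖) ^ (2 : ℝ≥0∞).toReal := by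
  simp only [hT, one_mul]
  exact lp.sum_rpow_le_norm_rpow (by norm_num) f s

/-- The direct sum of isometric operators. -/
def dmap (T : ∀ i, K i →L[ℂ] K i) (hT : ∀ i x, ‖T i x‖ = ‖x‖) : lp K 2 →L[ℂ] lp K 2 :=
  LinearMap.mkContinuous
    { toFun := fun f => ⟨fun i => T i (f i), memℓp_gen' (dmap_sum T hT f)⟩
      map_add' := by
        intro f g
        apply lp.ext
        funext i
        show T i ((f + g : lp K 2) i) = T i (f i) + T i (g i)
        rw [lp.coeFn_add, Pi.add_apply, map_add]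
      map_smul' := by
        intro a f
        apply lp.ext
        funext i
        show T i ((a • f : lp K 2) i) = a • T i (f i)
        rw [lp.coeFn_smul, Pi.smul_apply, map_smul] } 1
    (fun f => lp.norm_le_of_forall_sum_le (by norm_num) (by positivity) (dmap_sum T hT f))

theorem dmap_apply (T : ∀ i, K i →L[ℂ] K i) (hT : ∀ i x, ‖T i x‖ = ‖x‖) (f : lp K 2) (i : I) :
    dmap T hT f i = T i (f i) := rfl

variable {G : Type} [Group G]

theorem norm_opr {K : Type} [NormedAddCommGroup K] [InnerProductSpace ℂ K] [CompleteSpace K]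
    {σ : G →* (K →L[ℂ] K)ˣ} (hσ : ∀ g, opr σ g ∈ unitary (K →L[ℂ] K)) (g : G) (x : K) :
    ‖opr σ g x‖ = ‖x‖ := by
  have h1 := (Unitary.mem_iff.1 (hσ g)).1
  have h2 : inner ℂ (opr σ g x) (opr σ g x) = inner ℂ x x := by
    rw [← ContinuousLinearMap.adjoint_inner_left, ← ContinuousLinearMap.star_eq_adjoint]
    have h3 : (star (opr σ g)) (opr σ g x) = x := congrArg (fun T : K →L[ℂ] K => T x) h1
    rw [h3]
  have h3 : ‖opr σ g x‖ ^ 2 = ‖x‖ ^ 2 := by
    rw [← inner_self_eq_norm_sq (𝕜 := ℂ), ← inner_self_eq_norm_sq (𝕜 := ℂ), h2]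
  exact (sq_eq_sq₀ (norm_nonneg _) (norm_nonneg _)).1 h3

variable [∀ i, CompleteSpace (K i)]

/-- The direct sum of a family of unitary representations. -/
theorem exists_dsum (σ : ∀ i, G →* (K i →L[ℂ] K i)ˣ)
    (hσ : ∀ i g, opr (σ i) g ∈ unitary (K i →L[ℂ] K i)) :
    ∃ τ : G →* (lp K 2 →L[ℂ] lp K 2)ˣ, (∀ g, opr τ g ∈ unitary (lp K 2 →L[ℂ] lp K 2)) ∧
      (∀ g f i, opr τ g f i = opr (σ i) g (f i)) ∧
      ∀ (f : G →₀ ℂ) (i : I), ‖opl (σ i) f‖ ≤ ‖opl τ f‖ := by
  classical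
  let τ₀ : G →* (lp K 2 →L[ℂ] lp K 2) :=
    { toFun := fun g => dmap (fun i => opr (σ i) g) (fun i x => norm_opr (hσ i) g x)
      map_one' := by
        ext1 f
        apply lp.ext
        funext i
        show opr (σ i) 1 (f i) = f i
        rw [opr_one]
        rfl
      map_mul' := by
        intro g k
        ext1 f
        apply lp.ext
        funext i
        show opr (σ i) (g * k) (f i) = opr (σ i) g (opr (σ i) k (f i))
        rw [opr_mul]
        rfl }
  have hst : ∀ g, star (τ₀ g) = τ₀ g⁻¹ := by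
    intro g
    rw [ContinuousLinearMap.star_eq_adjoint]
    symm
    rw [ContinuousLinearMap.eq_adjoint_iff]
    intro x y
    rw [lp.inner_eq_tsum, lp.inner_eq_tsum]
    refine tsum_congr fun i => ?_
    show inner ℂ (opr (σ i) g⁻¹ (x i)) (y i) = inner ℂ (x i) (opr (σ i) g (y i))
    rw [← star_opr (hσ i), ContinuousLinearMap.star_eq_adjoint,
      ContinuousLinearMap.adjoint_inner_left]
  have hap : ∀ g f i, opr τ₀.toHomUnits g f i = opr (σ i) g (f i) := fun g f i => rfl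
  have hl : ∀ (f : G →₀ ℂ) (x : lp K 2) (i : I), opl τ₀.toHomUnits f x i = opl (σ i) f (x i) := by
    intro f x i
    induction f using Finsupp.induction_linear with
    | zero => simp
    | add f₁ f₂ h₁ h₂ =>
      rw [map_add, map_add, add_apply, add_apply,
        lp.coeFn_add, Pi.add_apply, h₁, h₂]
    | single g a =>
      rw [opl_single, opl_single, smul_apply, smul_apply,
        lp.coeFn_smul, Pi.smul_apply, hap]
  refine ⟨τ₀.toHomUnits, fun g => ?_, hap, fun f i => ?_⟩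
  · show τ₀ g ∈ _
    rw [Unitary.mem_iff, hst, ← map_mul, ← map_mul, inv_mul_cancel, mul_inv_cancel, map_one]
    exact ⟨rfl, rfl⟩
  · refine ContinuousLinearMap.opNorm_le_bound _ (norm_nonneg _) fun x => ?_
    have h1 : opl (σ i) f x = opl τ₀.toHomUnits f (lp.single 2 i x) i := by
      rw [hl, lp.single_apply_self]
    rw [h1]
    refine (lp.norm_apply_le_norm (by norm_num) _ i).trans ?_
    refine (ContinuousLinearMap.le_opNorm _ _).trans ?_
    rw [lp.norm_single (by norm_num)]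

end dsum

section ubp

variable {G : Type} [Group G]
variable {H K : Type} [NormedAddCommGroup H] [InnerProductSpace ℂ H] [CompleteSpace H]
  [NormedAddCommGroup K] [InnerProductSpace ℂ K] [CompleteSpace K]

omit [CompleteSpace K] in
/-- Vector functionals dominated by a unitary representation: uniform boundedness. -/
theorem dominated_of_weak (π : G →* (H →L[ℂ] H)ˣ) (σ : G →* (K →L[ℂ] K)ˣ)
    (h : ∀ x y : H, ∃ C : ℝ, ∀ f : G →₀ ℂ, ‖inner ℂ y (opl π f x)‖ ≤ C * ‖opl σ f‖) :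
    ∃ C : ℝ, 1 ≤ C ∧ ∀ f : G →₀ ℂ, ‖opl π f‖ ≤ C * ‖opl σ f‖ := by
  -- first step
  have h1 : ∀ x : H, ∃ C : ℝ, ∀ f : {f : G →₀ ℂ // ‖opl σ f‖ ≤ 1}, ‖opl π f x‖ ≤ C := by
    intro x
    have := banach_steinhaus (𝕜 := ℂ) (𝕜₂ := ℂ) (σ₁₂ := RingHom.id ℂ)
      (g := fun f : {f : G →₀ ℂ // ‖opl σ f‖ ≤ 1} => innerSL ℂ (opl π f x)) (fun y => by
        obtain ⟨C, hC⟩ := h x y
        refine ⟨max C 0, fun f => ?_⟩
        have h2 := hC f
        have h3 : ‖innerSL ℂ (opl π f x) y‖ = ‖inner ℂ y (opl π f x)‖ := by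
          rw [innerSL_apply_apply, ← inner_conj_symm, RCLike.norm_conj]
        rw [h3]
        refine h2.trans ?_
        have h4 : C * ‖opl σ (f : G →₀ ℂ)‖ ≤ max C 0 * ‖opl σ (f : G →₀ ℂ)‖ :=
          mul_le_mul_of_nonneg_right (le_max_left _ _) (norm_nonneg _)
        have h5 : max C 0 * ‖opl σ (f : G →₀ ℂ)‖ ≤ max C 0 * 1 :=
          mul_le_mul_of_nonneg_left f.2 (le_max_right _ _)
        linarith)
    obtain ⟨C, hC⟩ := this
    refine ⟨C, fun f => ?_⟩
    have := hC f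
    rwa [innerSL_apply_norm] at this
  obtain ⟨C, hC⟩ := banach_steinhaus (𝕜 := ℂ) (𝕜₂ := ℂ) (σ₁₂ := RingHom.id ℂ)
    (g := fun f : {f : G →₀ ℂ // ‖opl σ f‖ ≤ 1} => opl π (f : G →₀ ℂ)) h1
  have hC0 : 0 ≤ C := (norm_nonneg _).trans (hC ⟨0, by simp⟩)
  refine ⟨max 1 C, le_max_left _ _, fun f => ?_⟩
  have key : ‖opl π f‖ ≤ C * ‖opl σ f‖ := by
    by_cases hf : ‖opl σ f‖ = 0
    · rw [hf, mul_zero]
      by_contra hlt
      push Not at hlt
      set t : ℝ := (C + 1) / ‖opl π f‖ with ht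
      have h3 := hC ⟨((t : ℝ) : ℂ) • f, by rw [map_smul, norm_smul, hf, mul_zero]; norm_num⟩
      dsimp only at h3
      rw [map_smul, norm_smul, Complex.norm_real, Real.norm_of_nonneg (by positivity), ht,
        div_mul_cancel₀ _ hlt.ne'] at h3
      linarith
    · have hpos : 0 < ‖opl σ f‖ := lt_of_le_of_ne (norm_nonneg _) (Ne.symm hf)
      set t : ℝ := 1 / ‖opl σ f‖ with ht
      have h3 := hC ⟨((t : ℝ) : ℂ) • f, by
        rw [map_smul, norm_smul, Complex.norm_real, Real.norm_of_nonneg (by positivity), ht,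
          one_div, inv_mul_cancel₀ hpos.ne']⟩
      dsimp only at h3
      rw [map_smul, norm_smul, Complex.norm_real, Real.norm_of_nonneg (by positivity), ht,
        one_div, inv_mul_le_iff₀ hpos] at h3
      linarith
  exact key.trans (mul_le_mul_of_nonneg_right (le_max_right _ _) (norm_nonneg _))

/-- It suffices to dominate the diagonal vector functionals, each by some unitary
representation. -/
theorem dominated_of_diag (π : G →* (H →L[ℂ] H)ˣ)
    (h : ∀ x : H, ∃ (K : Type) (_ : NormedAddCommGroup K) (_ : InnerProductSpace ℂ K)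
      (_ : CompleteSpace K) (σ : G →* (K →L[ℂ] K)ˣ) (C : ℝ),
      (∀ g, opr σ g ∈ unitary (K →L[ℂ] K)) ∧
      ∀ f : G →₀ ℂ, ‖inner ℂ x (opl π f x)‖ ≤ C * ‖opl σ f‖) :
    ∃ (K : Type) (_ : NormedAddCommGroup K) (_ : InnerProductSpace ℂ K)
      (_ : CompleteSpace K) (σ : G →* (K →L[ℂ] K)ˣ) (C : ℝ),
      (∀ g, opr σ g ∈ unitary (K →L[ℂ] K)) ∧ 1 ≤ C ∧
      ∀ f : G →₀ ℂ, ‖opl π f‖ ≤ C * ‖opl σ f‖ := by
  choose K i1 i2 i3 σ C hσ hC using h
  obtain ⟨τ, hτ, _, hle⟩ := exists_dsum σ hσ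
  have hdiag : ∀ x : H, ∃ D : ℝ, 0 ≤ D ∧ ∀ f : G →₀ ℂ, ‖inner ℂ x (opl π f x)‖ ≤ D * ‖opl τ f‖ := by
    intro x
    refine ⟨max (C x) 0, le_max_right _ _, fun f => ?_⟩
    calc ‖inner ℂ x (opl π f x)‖ ≤ C x * ‖opl (σ x) f‖ := hC x f
      _ ≤ max (C x) 0 * ‖opl (σ x) f‖ :=
        mul_le_mul_of_nonneg_right (le_max_left _ _) (norm_nonneg _)
      _ ≤ max (C x) 0 * ‖opl τ f‖ := mul_le_mul_of_nonneg_left (hle f x) (le_max_right _ _)
  have hpol : ∀ x y : H, ∃ D : ℝ, ∀ f : G →₀ ℂ, ‖inner ℂ y (opl π f x)‖ ≤ D * ‖opl τ f‖ := by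
    intro x y
    obtain ⟨D1, _, hD1⟩ := hdiag (x + y)
    obtain ⟨D2, _, hD2⟩ := hdiag (x - y)
    obtain ⟨D3, _, hD3⟩ := hdiag (x + Complex.I • y)
    obtain ⟨D4, _, hD4⟩ := hdiag (x - Complex.I • y)
    refine ⟨(D1 + D2 + D3 + D4) / 4, fun f => ?_⟩
    set T := opl π f with hT
    have e : 4 * inner ℂ y (T x) = inner ℂ (x + y) (T (x + y)) - inner ℂ (x - y) (T (x - y)) +
        Complex.I * inner ℂ (x + Complex.I • y) (T (x + Complex.I • y)) -
        Complex.I * inner ℂ (x - Complex.I • y) (T (x - Complex.I • y)) := by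
      simp only [map_add, map_sub, map_smul, inner_add_left, inner_add_right, inner_sub_left,
        inner_sub_right, inner_smul_left, inner_smul_right, Complex.conj_I]
      linear_combination (2 * inner ℂ y (T x) - 2 * inner ℂ x (T y)) * Complex.I_sq
    have h4 : ‖(4 : ℂ) * inner ℂ y (T x)‖ ≤ (D1 + D2 + D3 + D4) * ‖opl τ f‖ := by
      rw [e]
      have a1 := hD1 f
      have a2 := hD2 f
      have a3 := hD3 f
      have a4 := hD4 f
      rw [← hT] at a1 a2 a3 a4
      have b1 := norm_sub_le (inner ℂ (x + y) (T (x + y)) - inner ℂ (x - y) (T (x - y)) +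
        Complex.I * inner ℂ (x + Complex.I • y) (T (x + Complex.I • y)))
        (Complex.I * inner ℂ (x - Complex.I • y) (T (x - Complex.I • y)))
      have b2 := norm_add_le (inner ℂ (x + y) (T (x + y)) - inner ℂ (x - y) (T (x - y)))
        (Complex.I * inner ℂ (x + Complex.I • y) (T (x + Complex.I • y)))
      have b3 := norm_sub_le (inner ℂ (x + y) (T (x + y))) (inner ℂ (x - y) (T (x - y)))
      rw [norm_mul, Complex.norm_I, one_mul] at b1 b2
      linarith
    rw [norm_mul] at h4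
    have h5 : ‖(4 : ℂ)‖ = 4 := by norm_num
    rw [h5] at h4
    linarith
  obtain ⟨D, hD1, hD⟩ := dominated_of_weak π τ hpol
  exact ⟨lp K 2, inferInstance, inferInstance, inferInstance, τ, D, hτ, hD1, hD⟩

end ubp

end Pool.Agent.Y324.DX
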