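import Mathlib
import Pool.Agent.Y324.DX.Coef
import Pool.Agent.TH278.DX.Final

/-!
# Cyclic subrepresentations
-/

set_option autoImplicit false

noncomputable section

namespace Pool.Agent.Y324.DX

open Pool.Agent.TH278.DX (Inv inv_restrict inv_iff_sim)

variable {G : Type} [Group G]
variable {H : Type} [NormedAddCommGroup H] [InnerProductSpace ℂ H]

/-- `V` intertwines the operators `∑ f(g) π(g)`. -/
theorem opl_intertwine {H₀ : Type} [NormedAddCommGroup H₀] [InnerProductSpace ℂ H₀]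
    (π : G →* (H →L[ℂ] H)ˣ) (ρ : G →* (H₀ →L[ℂ] H₀)ˣ) (V : H₀ →L[ℂ] H)
    (h : ∀ g x, V (opr ρ g x) = opr π g (V x)) (f : G →₀ ℂ) (x : H₀) :
    V (opl ρ f x) = opl π f (V x) := by
  induction f using Finsupp.induction_linear with
  | zero => simp
  | add f₁ f₂ h₁ h₂ => rw [map_add, map_add, add_apply, add_apply, map_add, h₁, h₂]
  | single g a => rw [opl_single, opl_single, smul_apply, smul_apply, map_smul, h]

/-- Coefficients of the linear combinations. -/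
theorem inner_opl (π : G →* (H →L[ℂ] H)ˣ) (x y : H) (f : G →₀ ℂ) :
    inner ℂ y (opl π f x) = f.sum fun g a => a * inner ℂ y (opr π g x) := by
  rw [opl, Finsupp.linearCombination_apply, Finsupp.sum, ContinuousLinearMap.sum_apply, inner_sum,
    Finsupp.sum]
  refine Finset.sum_congr rfl fun g _ => ?_
  rw [smul_apply, inner_smul_right]

/-- The cyclic subspace generated by `ξ`. -/
def cyc (π : G →* (H →L[ℂ] H)ˣ) (ξ : H) : Submodule ℂ H :=
  (Submodule.span ℂ (Set.range fun g => opr π g ξ)).topologicalClosure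

theorem cyc_mem (π : G →* (H →L[ℂ] H)ˣ) (ξ : H) (g : G) {x : H} (hx : x ∈ cyc π ξ) :
    opr π g x ∈ cyc π ξ := by
  have h1 : Set.MapsTo (opr π g) (Submodule.span ℂ (Set.range fun g => opr π g ξ) : Set H)
      (Submodule.span ℂ (Set.range fun g => opr π g ξ) : Set H) := by
    intro y hy
    have h2 : Submodule.span ℂ (Set.range fun g => opr π g ξ) ≤
        (Submodule.span ℂ (Set.range fun g => opr π g ξ)).comap (opr π g).toLinearMap := by
      rw [Submodule.span_le]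
      rintro _ ⟨k, rfl⟩
      apply Submodule.subset_span
      refine ⟨g * k, ?_⟩
      show opr π (g * k) ξ = opr π g (opr π k ξ)
      rw [opr_mul]
      rfl
    exact h2 hy
  exact h1.closure (opr π g).continuous hx

/-- The cyclic subrepresentation generated by `ξ`. -/
theorem exists_cyclic [CompleteSpace H] (π : G →* (H →L[ℂ] H)ˣ) (ξ : H) :
    ∃ (H₀ : Type) (_ : NormedAddCommGroup H₀) (_ : InnerProductSpace ℂ H₀) (_ : CompleteSpace H₀)
      (ρ : G →* (H₀ →L[ℂ] H₀)ˣ) (J : H₀ →ₗᵢ[ℂ] H) (ξ₀ : H₀),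
      (∀ g x, J (opr ρ g x) = opr π g (J x)) ∧ J ξ₀ = ξ ∧
      Dense ((Submodule.span ℂ (Set.range fun g => opr ρ g ξ₀) : Submodule ℂ H₀) : Set H₀) := by
  have hc : IsClosed (cyc π ξ : Set H) := Submodule.isClosed_topologicalClosure _
  have : CompleteSpace (cyc π ξ) := hc.completeSpace_coe
  let ρ₀ : G →* ((cyc π ξ) →L[ℂ] (cyc π ξ)) :=
    { toFun := fun g => (opr π g ∘L (cyc π ξ).subtypeL).codRestrict (cyc π ξ)
        (fun x => cyc_mem π ξ g x.2)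
      map_one' := by
        ext x
        show opr π 1 (x : H) = x
        rw [opr_one]
        rfl
      map_mul' := by
        intro g k
        ext x
        show opr π (g * k) (x : H) = opr π g (opr π k (x : H))
        rw [opr_mul]
        rfl }
  have hξ : ξ ∈ cyc π ξ := by
    apply Submodule.le_topologicalClosure
    apply Submodule.subset_span
    refine ⟨1, ?_⟩
    show opr π 1 ξ = ξ
    rw [opr_one]
    rfl
  refine ⟨cyc π ξ, inferInstance, inferInstance, this, ρ₀.toHomUnits, (cyc π ξ).subtypeₗᵢ,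
    ⟨ξ, hξ⟩, fun g x => rfl, rfl, ?_⟩
  intro x
  have hx : (x : H) ∈ closure ((Submodule.span ℂ (Set.range fun g => opr π g ξ) :
      Submodule ℂ H) : Set H) := x.2
  rw [mem_closure_iff_seq_limit] at hx ⊢
  obtain ⟨y, hy, hlim⟩ := hx
  have hmap : (Submodule.span ℂ (Set.range fun g => opr ρ₀.toHomUnits g ⟨ξ, hξ⟩)).map
      (cyc π ξ).subtype = Submodule.span ℂ (Set.range fun g => opr π g ξ) := by
    rw [Submodule.map_span, ← Set.range_comp]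
    rfl
  have hy' : ∀ n, ∃ z : cyc π ξ, z ∈ Submodule.span ℂ
      (Set.range fun g => opr ρ₀.toHomUnits g ⟨ξ, hξ⟩) ∧ (z : H) = y n := by
    intro n
    have := hy n
    rw [← hmap] at this
    obtain ⟨z, hz, hzy⟩ := this
    exact ⟨z, hz, hzy⟩
  choose z hz hzy using hy'
  refine ⟨z, hz, ?_⟩
  rw [tendsto_subtype_rng]
  refine hlim.congr fun n => ?_
  exact (hzy n).symm

/-- Unitarizability passes to subrepresentations. -/
theorem unit_sub {H₀ : Type} [NormedAddCommGroup H₀] [InnerProductSpace ℂ H₀] [CompleteSpace H₀]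
    [CompleteSpace H] (π : G →* (H →L[ℂ] H)ˣ) (ρ : G →* (H₀ →L[ℂ] H₀)ˣ) (J : H₀ →ₗᵢ[ℂ] H)
    (hJ : ∀ g x, J (opr ρ g x) = opr π g (J x))
    (h : ∃ S : (H →L[ℂ] H)ˣ, ∀ g : G,
      ((S * π g * S⁻¹ : (H →L[ℂ] H)ˣ) : H →L[ℂ] H) ∈ unitary (H →L[ℂ] H)) :
    ∃ S : (H₀ →L[ℂ] H₀)ˣ, ∀ g : G,
      ((S * ρ g * S⁻¹ : (H₀ →L[ℂ] H₀)ˣ) : H₀ →L[ℂ] H₀) ∈ unitary (H₀ →L[ℂ] H₀) := by
  obtain ⟨S, hS⟩ := h
  obtain ⟨M, hM⟩ := (inv_iff_sim π).2 ⟨_, S, le_rfl, hS⟩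
  have h1 : Inv ρ 1 M := inv_restrict (fun g : G => g) ρ π J (fun g x => (hJ g x).symm) 1 M hM
  obtain ⟨κ, S', _, hS'⟩ := (inv_iff_sim ρ).1 ⟨M, h1⟩
  exact ⟨S', hS'⟩

/-- A unitarizable representation is dominated by a unitary one. -/
theorem dominated_of_unit [CompleteSpace H] (π : G →* (H →L[ℂ] H)ˣ)
    (h : ∃ S : (H →L[ℂ] H)ˣ, ∀ g : G,
      ((S * π g * S⁻¹ : (H →L[ℂ] H)ˣ) : H →L[ℂ] H) ∈ unitary (H →L[ℂ] H)) :
    ∃ (σ : G →* (H →L[ℂ] H)ˣ) (C : ℝ), (∀ g, opr σ g ∈ unitary (H →L[ℂ] H)) ∧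
      (∃ S S' : H →L[ℂ] H, ∀ g, opr π g = S' * opr σ g * S) ∧
      ∀ f : G →₀ ℂ, ‖opl π f‖ ≤ C * ‖opl σ f‖ := by
  obtain ⟨S, hS⟩ := h
  let σ : G →* (H →L[ℂ] H)ˣ := (MulAut.conj S).toMonoidHom.comp π
  have hσv : ∀ g, σ g = S * π g * S⁻¹ := fun g => rfl
  have hrel : ∀ g, opr π g = ((S⁻¹ : (H →L[ℂ] H)ˣ) : H →L[ℂ] H) * opr σ g * (S : H →L[ℂ] H) := by
    intro g
    have h1 : π g = S⁻¹ * σ g * S := by
      rw [hσv]
      group
    calc opr π g = ((π g : (H →L[ℂ] H)ˣ) : H →L[ℂ] H) := rfl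
      _ = _ := by
        rw [h1]
        rfl
  have hl : ∀ f : G →₀ ℂ, opl π f =
      ((S⁻¹ : (H →L[ℂ] H)ˣ) : H →L[ℂ] H) * opl σ f * (S : H →L[ℂ] H) := by
    intro f
    induction f using Finsupp.induction_linear with
    | zero => simp
    | add f₁ f₂ h₁ h₂ => rw [map_add, map_add, h₁, h₂, mul_add, add_mul]
    | single g a => rw [opl_single, opl_single, hrel, mul_smul_comm, smul_mul_assoc]
  refine ⟨σ, ‖((S⁻¹ : (H →L[ℂ] H)ˣ) : H →L[ℂ] H)‖ * ‖(S : H →L[ℂ] H)‖, fun g => hS g,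
    ⟨S, ((S⁻¹ : (H →L[ℂ] H)ˣ) : H →L[ℂ] H), hrel⟩, fun f => ?_⟩
  rw [hl]
  refine (norm_mul_le _ _).trans ?_
  have h1 := norm_mul_le (((S⁻¹ : (H →L[ℂ] H)ˣ) : H →L[ℂ] H)) (opl σ f)
  calc ‖((S⁻¹ : (H →L[ℂ] H)ˣ) : H →L[ℂ] H) * opl σ f‖ * ‖(S : H →L[ℂ] H)‖
      ≤ (‖((S⁻¹ : (H →L[ℂ] H)ˣ) : H →L[ℂ] H)‖ * ‖opl σ f‖) * ‖(S : H →L[ℂ] H)‖ :=
        mul_le_mul_of_nonneg_right h1 (norm_nonneg _)
    _ = _ := by ring

end Pool.Agent.Y324.DX
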