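import Mathlib
import Pool.Agent.Y324.DX.Cyc

/-!
# Domination on a nonmeagre set of vectors
-/

set_option autoImplicit false

noncomputable section

namespace Pool.Agent.Y324.DX

variable {G : Type} [Group G]
variable {H : Type} [NormedAddCommGroup H] [InnerProductSpace ℂ H] [CompleteSpace H]

/-- It suffices to dominate the diagonal vector functionals of a nonmeagre set of vectors. -/
theorem dominated_of_nonmeagre (π : G →* (H →L[ℂ] H)ˣ)
    (h : ¬ IsMeagre {x : H | ∃ (K : Type) (_ : NormedAddCommGroup K) (_ : InnerProductSpace ℂ K)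
      (_ : CompleteSpace K) (σ : G →* (K →L[ℂ] K)ˣ) (C : ℝ),
      (∀ g, opr σ g ∈ unitary (K →L[ℂ] K)) ∧
      ∀ f : G →₀ ℂ, ‖inner ℂ x (opl π f x)‖ ≤ C * ‖opl σ f‖}) :
    ∃ (K : Type) (_ : NormedAddCommGroup K) (_ : InnerProductSpace ℂ K)
      (_ : CompleteSpace K) (σ : G →* (K →L[ℂ] K)ˣ) (C : ℝ),
      (∀ g, opr σ g ∈ unitary (K →L[ℂ] K)) ∧ 1 ≤ C ∧
      ∀ f : G →₀ ℂ, ‖opl π f‖ ≤ C * ‖opl σ f‖ := by
  set X : Set H := {x : H | ∃ (K : Type) (_ : NormedAddCommGroup K) (_ : InnerProductSpace ℂ K)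
      (_ : CompleteSpace K) (σ : G →* (K →L[ℂ] K)ˣ) (C : ℝ),
      (∀ g, opr σ g ∈ unitary (K →L[ℂ] K)) ∧
      ∀ f : G →₀ ℂ, ‖inner ℂ x (opl π f x)‖ ≤ C * ‖opl σ f‖} with hX
  have hch : ∀ x : X, ∃ (K : Type) (_ : NormedAddCommGroup K) (_ : InnerProductSpace ℂ K)
      (_ : CompleteSpace K) (σ : G →* (K →L[ℂ] K)ˣ) (C : ℝ),
      (∀ g, opr σ g ∈ unitary (K →L[ℂ] K)) ∧
      ∀ f : G →₀ ℂ, ‖inner ℂ (x : H) (opl π f (x : H))‖ ≤ C * ‖opl σ f‖ := fun x => x.2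
  choose K i1 i2 i3 σ C hσ hC using hch
  obtain ⟨τ, hτ, _, hle⟩ := exists_dsum σ hσ
  let F : ℕ → Set H := fun n => {x | ∀ f : G →₀ ℂ, ‖inner ℂ x (opl π f x)‖ ≤ n * ‖opl τ f‖}
  have hFc : ∀ n, IsClosed (F n) := by
    intro n
    have : F n = ⋂ f : G →₀ ℂ, {x | ‖inner ℂ x (opl π f x)‖ ≤ n * ‖opl τ f‖} := by
      ext x
      simp only [F, Set.mem_setOf_eq, Set.mem_iInter]
    rw [this]
    refine isClosed_iInter fun f => ?_
    refine isClosed_le ?_ continuous_const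
    exact (continuous_id.inner (opl π f).continuous).norm
  have hcov : X ⊆ ⋃ n, F n := by
    intro x hx
    obtain ⟨n, hn⟩ := exists_nat_ge (C ⟨x, hx⟩)
    refine Set.mem_iUnion.2 ⟨n, fun f => ?_⟩
    calc ‖inner ℂ x (opl π f x)‖ ≤ C ⟨x, hx⟩ * ‖opl (σ ⟨x, hx⟩) f‖ := hC ⟨x, hx⟩ f
      _ ≤ n * ‖opl (σ ⟨x, hx⟩) f‖ := mul_le_mul_of_nonneg_right hn (norm_nonneg _)
      _ ≤ n * ‖opl τ f‖ := mul_le_mul_of_nonneg_left (hle f ⟨x, hx⟩) (Nat.cast_nonneg n)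
  obtain ⟨n, hn⟩ : ∃ n, (interior (F n)).Nonempty := by
    by_contra hcon
    push Not at hcon
    apply h
    refine IsMeagre.mono hcov (isMeagre_iUnion fun n => ?_)
    apply IsNowhereDense.isMeagre
    rw [(hFc n).isNowhereDense_iff]
    exact hcon n
  obtain ⟨x₀, hx₀⟩ := hn
  rw [mem_interior_iff_mem_nhds, Metric.mem_nhds_iff] at hx₀
  obtain ⟨r, hr, hball⟩ := hx₀
  have hQ : ∀ (v : H), ‖v‖ < r → ∀ f : G →₀ ℂ, ‖inner ℂ v (opl π f v)‖ ≤ 2 * n * ‖opl τ f‖ := by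
    intro v hv f
    have h0 := hball (Metric.mem_ball_self hr) f
    have h1 : x₀ + v ∈ F n := hball (by rw [Metric.mem_ball, dist_eq_norm]; simpa using hv)
    have h2 : x₀ - v ∈ F n := hball (by rw [Metric.mem_ball, dist_eq_norm]; simpa using hv)
    have h1' := h1 f
    have h2' := h2 f
    set T := opl π f with hT
    have e : 2 * inner ℂ v (T v) = inner ℂ (x₀ + v) (T (x₀ + v)) + inner ℂ (x₀ - v) (T (x₀ - v)) -
        2 * inner ℂ x₀ (T x₀) := by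
      simp only [map_add, map_sub, inner_add_left, inner_add_right, inner_sub_left,
        inner_sub_right]
      ring
    have h3 : ‖(2 : ℂ) * inner ℂ v (T v)‖ ≤ n * ‖opl τ f‖ + n * ‖opl τ f‖ + 2 * (n * ‖opl τ f‖) := by
      rw [e]
      refine (norm_sub_le _ _).trans ?_
      have b1 := norm_add_le (inner ℂ (x₀ + v) (T (x₀ + v))) (inner ℂ (x₀ - v) (T (x₀ - v)))
      have b2 : ‖(2 : ℂ) * inner ℂ x₀ (T x₀)‖ = 2 * ‖inner ℂ x₀ (T x₀)‖ := by
        rw [norm_mul]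
        norm_num
      rw [b2]
      linarith
    rw [norm_mul] at h3
    have h5 : ‖(2 : ℂ)‖ = 2 := by norm_num
    rw [h5] at h3
    linarith
  apply dominated_of_diag π
  intro x
  refine ⟨_, _, _, inferInstance, τ, (2 * (‖x‖ + 1) / r) ^ 2 * (2 * n), hτ, fun f => ?_⟩
  set t : ℝ := 2 * (‖x‖ + 1) / r with ht
  have ht0 : 0 < t := by positivity
  have hv : ‖((t⁻¹ : ℝ) : ℂ) • x‖ < r := by
    rw [norm_smul, Complex.norm_real, Real.norm_of_nonneg (inv_nonneg.2 ht0.le), ht, inv_div,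
      div_mul_eq_mul_div, div_lt_iff₀ (by positivity)]
    nlinarith [norm_nonneg x]
  have h1 := hQ _ hv f
  have hx : x = ((t : ℝ) : ℂ) • (((t⁻¹ : ℝ) : ℂ) • x) := by
    rw [smul_smul, ← Complex.ofReal_mul, mul_inv_cancel₀ ht0.ne', Complex.ofReal_one, one_smul]
  have h2 : ‖inner ℂ x (opl π f x)‖ = t ^ 2 * ‖inner ℂ (((t⁻¹ : ℝ) : ℂ) • x)
      (opl π f (((t⁻¹ : ℝ) : ℂ) • x))‖ := by
    conv_lhs => rw [hx]
    rw [map_smul (opl π f) ((t : ℝ) : ℂ), inner_smul_left, inner_smul_right, norm_mul, norm_mul,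
      Complex.conj_ofReal, Complex.norm_real, Real.norm_of_nonneg ht0.le]
    ring
  rw [h2, mul_assoc]
  exact mul_le_mul_of_nonneg_left h1 (sq_nonneg _)

end Pool.Agent.Y324.DX
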